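import Pool.Agent.V5helper80.Rel.Two
import Pool.Agent.V5helper80.NPI.Edm

/-!
# Injective labelled oriented forests
-/

set_option autoImplicit false

namespace Pool.Agent.V5helper80.Rel

open Pool.Agent.TH625.LOG

section forest
variable {V E : Type}

/-- a connected graph with one vertex more than edges is a forest -/
theorem forest_of_conn [Fintype V] [Fintype E] (p q : E → V)
    (hconn : ∀ c : V → ℚ, (∀ e, c (p e) = c (q e)) → ∀ x y, c x = c y)
    (hcard : Fintype.card V = Fintype.card E + 1) : Forest p q := by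
  classical
  let D : (V → ℚ) →ₗ[ℚ] (E → ℚ) :=
    { toFun := fun c e => c (p e) - c (q e)
      map_add' := by
        intro c d; funext f; simp only [Pi.add_apply]; ring
      map_smul' := by
        intro r c; funext f; simp only [Pi.smul_apply, smul_eq_mul, RingHom.id_apply]; ring }
  have hpos : 0 < Fintype.card V := by omega
  obtain ⟨x0⟩ : Nonempty V := Fintype.card_pos_iff.1 hpos
  have hker : Module.finrank ℚ (LinearMap.ker D) ≤ 1 := by
    let ev : LinearMap.ker D →ₗ[ℚ] ℚ := (LinearMap.proj x0).comp (LinearMap.ker D).subtype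
    have hinj : Function.Injective ev := by
      rw [← LinearMap.ker_eq_bot, LinearMap.ker_eq_bot']
      rintro ⟨c, hc⟩ h
      have h1 : c x0 = 0 := h
      have h2 : ∀ e, c (p e) = c (q e) := fun e => by
        have h3 : c (p e) - c (q e) = 0 := congrFun (LinearMap.mem_ker.1 hc) e
        linarith
      refine Subtype.ext ?_
      funext x
      show c x = 0
      rw [hconn c h2 x x0, h1]
    have := LinearMap.finrank_le_finrank_of_injective hinj
    simpa using this
  have hsurj : Function.Surjective D := by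
    rw [← LinearMap.range_eq_top]
    apply Submodule.eq_top_of_finrank_eq
    have h1 := LinearMap.finrank_range_add_finrank_ker D
    have h2 := Submodule.finrank_le (LinearMap.range D)
    rw [Module.finrank_fintype_fun_eq_card] at h1 h2 ⊢
    omega
  intro U T hU hT
  let DU : (U → ℚ) →ₗ[ℚ] (T → ℚ) :=
    { toFun := fun c e => c ⟨p e.1, (hT e.1 e.2).1⟩ - c ⟨q e.1, (hT e.1 e.2).2⟩
      map_add' := by
        intro c d; funext f; simp only [Pi.add_apply]; ring
      map_smul' := by
        intro r c; funext f; simp only [Pi.smul_apply, smul_eq_mul, RingHom.id_apply]; ring }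
  have hs : Function.Surjective DU := by
    intro g
    obtain ⟨c, hc⟩ := hsurj (fun e => if h : e ∈ T then g ⟨e, h⟩ else 0)
    refine ⟨fun u => c u.1, ?_⟩
    funext e
    have := congrFun hc e.1
    rw [dif_pos e.2] at this
    exact this
  have h1 := LinearMap.finrank_range_add_finrank_ker DU
  rw [LinearMap.range_eq_top.2 hs, finrank_top] at h1
  have h2 : 1 ≤ Module.finrank ℚ (LinearMap.ker DU) := by
    have hne : LinearMap.ker DU ≠ ⊥ := by
      intro h
      have h6 : (fun _ => (1 : ℚ) : U → ℚ) ∈ LinearMap.ker DU := by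
        rw [LinearMap.mem_ker]
        funext x
        show (1 : ℚ) - 1 = 0
        norm_num
      rw [h, Submodule.mem_bot] at h6
      obtain ⟨x, hx⟩ := hU
      have := congrFun h6 ⟨x, hx⟩
      simp at this
    have : 0 < Module.finrank ℚ (LinearMap.ker DU) := by
      rw [Module.finrank_pos_iff]
      exact Submodule.nontrivial_iff_ne_bot.2 hne
    omega
  have h6 : Module.finrank ℚ (T → ℚ) = T.card := by simp
  have h7 : Module.finrank ℚ (U → ℚ) = U.card := by simp
  omega

theorem forest_of_log [Fintype V] [Fintype E] (L : LOG V E) (hL : L.Conn)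
    (hcard : Fintype.card V = Fintype.card E + 1) : Forest L.ini L.ter := by
  refine forest_of_conn L.ini L.ter (fun c hc x y => ?_) hcard
  have h : Relation.ReflTransGen L.Adj x y := hL x y
  induction h with
  | refl => rfl
  | tail _ hab ih =>
    rw [ih]
    obtain ⟨e, he⟩ := hab
    rcases he with ⟨h1, h2⟩ | ⟨h1, h2⟩
    · rw [← h1, ← h2, hc]
    · rw [← h1, ← h2, hc]

/-- a forest restricted along injective maps -/
theorem Forest.comap {V' E' : Type} {p q : E → V} (h : Forest p q) (p' q' : E' → V') (φ : V' → V)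
    (ψ : E' → E) (hφ : Function.Injective φ) (hψ : Function.Injective ψ)
    (hp : ∀ e, φ (p' e) = p (ψ e)) (hq : ∀ e, φ (q' e) = q (ψ e)) : Forest p' q' := by
  classical
  intro U D hU hD
  have h1 := h (U.image φ) (D.image ψ) (hU.image _) (by
    intro e he
    obtain ⟨e', he', rfl⟩ := Finset.mem_image.1 he
    rw [← hp, ← hq]
    exact ⟨Finset.mem_image_of_mem _ (hD e' he').1, Finset.mem_image_of_mem _ (hD e' he').2⟩)
  rwa [Finset.card_image_of_injective _ hφ, Finset.card_image_of_injective _ hψ] at h1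

/-- a function without cycles gives a forest -/
theorem forest_of_branching [DecidableEq V] (Z : Finset V) (lab : E → V)
    (hinj : Function.Injective lab) (hr : ∀ e, lab e ∉ Z) (η : V → V)
    (hη : ∀ S : Finset V, S.Nonempty → Disjoint S Z → ∃ v ∈ S, η v ∉ S) :
    Forest lab (fun e => η (lab e)) := by
  intro U D hU hD
  have h1 : (D.image lab).card = D.card := Finset.card_image_of_injective _ hinj
  obtain ⟨v, hv, hv'⟩ : ∃ v ∈ U, v ∉ D.image lab := by
    by_cases hrU : Disjoint U Z
    · obtain ⟨v, hv, hv'⟩ := hη U hU hrU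
      refine ⟨v, hv, fun h => hv' ?_⟩
      obtain ⟨e, he, rfl⟩ := Finset.mem_image.1 h
      exact (hD e he).2
    · obtain ⟨r, hr1, hr2⟩ := Finset.not_disjoint_iff.1 hrU
      exact ⟨r, hr1, fun h => by
        obtain ⟨e, _, he⟩ := Finset.mem_image.1 h
        exact hr e (he ▸ hr2)⟩
  have h2 : D.image lab ⊂ U := by
    refine Finset.ssubset_iff_subset_ne.2 ⟨fun u hu => ?_, fun h => hv' (h ▸ hv)⟩
    obtain ⟨e, he, rfl⟩ := Finset.mem_image.1 hu
    exact (hD e he).1
  have h3 := Finset.card_lt_card h2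
  omega

end forest

/-- a part of a part -/
theorem locInd_part_part {V E : Type} (L : LOG V E) (p : V → Prop) (q : {v // p v} → Prop)
    (r : V → Prop) (h : ∀ v, r v ↔ ∃ hv : p v, q ⟨v, hv⟩) (hr : LocInd (part L r).G) :
    LocInd (part (part L p) q).G := by
  let f : (part (part L p) q).G →* (part L r).G :=
    liftG (part (part L p) q) (fun v => (part L r).gen ⟨v.1.1, (h _).2 ⟨v.1.2, v.2⟩⟩) (by
      intro e
      exact gen_rel (part L r) ⟨e.1.1, (h _).2 ⟨e.1.2.1, e.2.1⟩, (h _).2 ⟨e.1.2.2.1, e.2.2.1⟩,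
        (h _).2 ⟨e.1.2.2.2, e.2.2.2⟩⟩)
  let g : (part L r).G →* (part (part L p) q).G :=
    liftG (part L r) (fun v => (part (part L p) q).gen
      ⟨⟨v.1, ((h _).1 v.2).1⟩, ((h _).1 v.2).2⟩) (by
      intro e
      exact gen_rel (part (part L p) q) ⟨⟨e.1, ((h _).1 e.2.1).1, ((h _).1 e.2.2.1).1,
        ((h _).1 e.2.2.2).1⟩, ((h _).1 e.2.1).2, ((h _).1 e.2.2.1).2, ((h _).1 e.2.2.2).2⟩)
  have hcomp : g.comp f = MonoidHom.id _ := by
    apply hom_ext
    intro v
    show g (f ((part (part L p) q).gen v)) = (part (part L p) q).gen v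
    rw [show f ((part (part L p) q).gen v) = _ from liftG_gen _ _ _ _]
    exact liftG_gen _ _ _ _
  refine locInd_of_injective hr f ?_
  intro x y hxy
  have := congrArg g hxy
  have hx := DFunLike.congr_fun hcomp x
  have hy := DFunLike.congr_fun hcomp y
  exact hx.symm.trans (this.trans hy)

section partition
open Classical
variable {V E I : Type} [Fintype V] [Fintype E]

/-- the edges with the label in a set of vertices -/
noncomputable def lc (L : LOG V E) (P : Finset V) : Finset E :=
  Finset.univ.filter fun e => L.lab e ∈ P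

theorem mem_vc {cl : V → I} {i : I} {v : V} : v ∈ vc cl i ↔ cl v = i := by simp [vc]

omit [Fintype V] in
theorem mem_ec {L : LOG V E} {P : Finset V} {e : E} :
    e ∈ ec L P ↔ L.ini e ∈ P ∧ L.ter e ∈ P ∧ L.lab e ∈ P := by simp [ec]

omit [Fintype V] in
theorem mem_lc {L : LOG V E} {P : Finset V} {e : E} : e ∈ lc L P ↔ L.lab e ∈ P := by simp [lc]

omit [Fintype V] in
theorem ec_subset_lc (L : LOG V E) (P : Finset V) : ec L P ⊆ lc L P := fun _ he =>
  mem_lc.2 (mem_ec.1 he).2.2

omit [Fintype V] in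
theorem ec_card (L : LOG V E) (hF : Forest L.ini L.ter) (P : Finset V) (hP : P.Nonempty) :
    (ec L P).card + 1 ≤ P.card :=
  hF P (ec L P) hP fun _ he => ⟨(mem_ec.1 he).1, (mem_ec.1 he).2.1⟩

theorem mem_out {L : LOG V E} {cl : V → I} {e : E} :
    e ∈ ec L (vc cl (cl (L.lab e))) ↔
      (cl (L.ini e) = cl (L.lab e) ∧ cl (L.ter e) = cl (L.lab e)) := by
  rw [mem_ec, mem_vc, mem_vc, mem_vc]
  tauto

/-- the class of `v` contains the label of an outer edge -/
def Lbd (L : LOG V E) (cl : V → I) (v : V) : Prop := ∃ e, Outer L cl e ∧ cl (L.lab e) = cl v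

section
variable {L : LOG V E} {c₀ : V → I} (hT : TreeP L c₀) (hI : InjP L c₀)
include hT

theorem cls_lt (v : V) (h : ¬ Lbd L c₀ v) :
    (lc L (vc c₀ (c₀ v))).card < (vc c₀ (c₀ v)).card := by
  have h1 := hT v
  have h2 : lc L (vc c₀ (c₀ v)) = ec L (vc c₀ (c₀ v)) := by
    refine Finset.Subset.antisymm (fun e he => ?_) (ec_subset_lc _ _)
    by_contra hne
    have h3 : c₀ (L.lab e) = c₀ v := mem_vc.1 (mem_lc.1 he)
    refine h ⟨e, fun h4 => hne ?_, h3⟩
    rw [← h3]
    exact mem_out.2 h4
  rw [h2]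
  omega

include hI

theorem cls_eq (v : V) (h : Lbd L c₀ v) :
    (lc L (vc c₀ (c₀ v))).card = (vc c₀ (c₀ v)).card := by
  have h1 := hT v
  have h3 := Finset.card_sdiff_add_card_eq_card (ec_subset_lc L (vc c₀ (c₀ v)))
  obtain ⟨e, he, hv⟩ := h
  have h4 : lc L (vc c₀ (c₀ v)) \ ec L (vc c₀ (c₀ v)) = {e} := by
    rw [Finset.eq_singleton_iff_unique_mem]
    constructor
    · rw [← hv]
      exact Finset.mem_sdiff.2 ⟨mem_lc.2 (mem_vc.2 rfl), fun h => he (mem_out.1 h)⟩
    · intro e' he'
      obtain ⟨h5, h6⟩ := Finset.mem_sdiff.1 he'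
      have h7 : c₀ (L.lab e') = c₀ v := mem_vc.1 (mem_lc.1 h5)
      refine hI e' e (fun h8 => h6 ?_) he (h7.trans hv.symm)
      rw [← h7]
      exact mem_out.2 h8
  rw [h4, Finset.card_singleton] at h3
  omega

theorem cls_le (v : V) : (lc L (vc c₀ (c₀ v))).card ≤ (vc c₀ (c₀ v)).card := by
  by_cases h : Lbd L c₀ v
  · exact (cls_eq hT hI v h).le
  · exact (cls_lt hT v h).le

omit hT hI in
theorem sum_lc (P : Finset V) (hP : ∀ u v, c₀ u = c₀ v → u ∈ P → v ∈ P) :
    (lc L P).card = ∑ i ∈ P.image c₀, (lc L (vc c₀ i)).card := by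
  rw [Finset.card_eq_sum_card_fiberwise (f := fun e => c₀ (L.lab e)) (t := P.image c₀)
    (fun e he => Finset.mem_image_of_mem _ (mem_lc.1 he))]
  refine Finset.sum_congr rfl fun i hi => ?_
  obtain ⟨v, hv, rfl⟩ := Finset.mem_image.1 hi
  congr 1
  ext e
  rw [Finset.mem_filter, mem_lc, mem_lc, mem_vc]
  constructor
  · exact fun h => h.2
  · exact fun h => ⟨hP v _ h.symm hv, h⟩

omit hT hI in
theorem sum_vc (P : Finset V) (hP : ∀ u v, c₀ u = c₀ v → u ∈ P → v ∈ P) :
    P.card = ∑ i ∈ P.image c₀, (vc c₀ i).card := by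
  rw [Finset.card_eq_sum_card_fiberwise (f := c₀) (t := P.image c₀)
    (fun e he => Finset.mem_image_of_mem _ he)]
  refine Finset.sum_congr rfl fun i hi => ?_
  obtain ⟨v, hv, rfl⟩ := Finset.mem_image.1 hi
  congr 1
  ext u
  rw [Finset.mem_filter, mem_vc]
  constructor
  · exact fun h => h.2
  · exact fun h => ⟨hP v _ h.symm hv, h⟩

theorem lc_card_le (P : Finset V) (hP : ∀ u v, c₀ u = c₀ v → u ∈ P → v ∈ P) :
    (lc L P).card ≤ P.card := by
  rw [sum_lc (L := L) P hP, sum_vc P hP]
  refine Finset.sum_le_sum fun i hi => ?_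
  obtain ⟨v, hv, rfl⟩ := Finset.mem_image.1 hi
  exact cls_le hT hI v

theorem lc_card_lt (P : Finset V) (hP : ∀ u v, c₀ u = c₀ v → u ∈ P → v ∈ P) (r : V)
    (hr : r ∈ P) (hr' : ¬ Lbd L c₀ r) : (lc L P).card < P.card := by
  rw [sum_lc (L := L) P hP, sum_vc P hP]
  refine Finset.sum_lt_sum (fun i hi => ?_) ⟨c₀ r, Finset.mem_image_of_mem _ hr,
    cls_lt hT r hr'⟩
  obtain ⟨v, hv, rfl⟩ := Finset.mem_image.1 hi
  exact cls_le hT hI v

theorem lc_card_eq (P : Finset V) (hP : ∀ u v, c₀ u = c₀ v → u ∈ P → v ∈ P)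
    (h : ∀ v ∈ P, Lbd L c₀ v) : (lc L P).card = P.card := by
  rw [sum_lc (L := L) P hP, sum_vc P hP]
  refine Finset.sum_congr rfl fun i hi => ?_
  obtain ⟨v, hv, rfl⟩ := Finset.mem_image.1 hi
  exact cls_eq hT hI v (h v hv)

end

/-- all classes are proper subtrees and unions of classes of `c₀` -/
def GoodP (L : LOG V E) (c₀ : V → I) (cl : V → V) : Prop :=
  (∀ u v, c₀ u = c₀ v → cl u = cl v) ∧ TreeP L cl ∧ ∀ v, ∃ u, cl u ≠ cl v

omit [Fintype V] [Fintype E] in
theorem outer_of_coarser (L : LOG V E) (c₀ : V → I) (cl : V → V)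
    (h : ∀ u v, c₀ u = c₀ v → cl u = cl v) (e : E) (he : Outer L cl e) : Outer L c₀ e :=
  fun h1 => he ⟨h _ _ h1.1, h _ _ h1.2⟩

theorem exists_minimal (L : LOG V E) (c₀ : V → I) (hT : TreeP L c₀)
    (h2 : ∀ v, ∃ u, c₀ u ≠ c₀ v) :
    ∃ cl : V → V, GoodP L c₀ cl ∧ ∀ cl', GoodP L c₀ cl' →
      (Finset.univ.image cl).card ≤ (Finset.univ.image cl').card := by
  -- representatives
  let rp : V → V := fun v => (⟨v, rfl⟩ : ∃ u, c₀ u = c₀ v).choose
  have hrp : ∀ v, c₀ (rp v) = c₀ v := fun v => (⟨v, rfl⟩ : ∃ u, c₀ u = c₀ v).choose_spec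
  have hrp1 : ∀ u v, c₀ u = c₀ v → rp u = rp v := by
    intro u v h
    simp only [rp, h]
  have hrp2 : ∀ u v, rp u = rp v → c₀ u = c₀ v := by
    intro u v h
    rw [← hrp u, ← hrp v, h]
  have hvc : ∀ v, vc rp (rp v) = vc c₀ (c₀ v) := by
    intro v
    ext u
    rw [mem_vc, mem_vc]
    exact ⟨hrp2 u v, hrp1 u v⟩
  have hid : GoodP L c₀ rp := by
    refine ⟨hrp1, fun v => ?_, fun v => ?_⟩
    · rw [hvc]; exact hT v
    · obtain ⟨u, hu⟩ := h2 v
      exact ⟨u, fun h => hu (hrp2 u v h)⟩
  obtain ⟨cl, hcl, hmin⟩ := (Finset.univ.filter fun cl : V → V => GoodP L c₀ cl).exists_min_image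
    (fun cl => (Finset.univ.image cl).card) ⟨rp, Finset.mem_filter.2 ⟨Finset.mem_univ _, hid⟩⟩
  exact ⟨cl, (Finset.mem_filter.1 hcl).2, fun cl' h' =>
    hmin cl' (Finset.mem_filter.2 ⟨Finset.mem_univ _, h'⟩)⟩

section
variable {L : LOG V E} {c₀ : V → I} (hT : TreeP L c₀) (hI : InjP L c₀) {cl : V → V}
  (hgood : GoodP L c₀ cl)
include hT hI hgood

/-- at most one outer edge has its label in a given class -/
theorem out_unique (e e' : E) (he : Outer L cl e) (he' : Outer L cl e')
    (h : cl (L.lab e) = cl (L.lab e')) : e = e' := by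
  have h1 := hgood.2.1 (L.lab e)
  have h2 := lc_card_le hT hI (vc cl (cl (L.lab e)))
    (fun u v huv hu => mem_vc.2 ((hgood.1 u v huv).symm.trans (mem_vc.1 hu)))
  have h3 := Finset.card_sdiff_add_card_eq_card (ec_subset_lc L (vc cl (cl (L.lab e))))
  have h4 : (lc L (vc cl (cl (L.lab e))) \ ec L (vc cl (cl (L.lab e)))).card ≤ 1 := by omega
  refine Finset.card_le_one.1 h4 e ?_ e' ?_
  · exact Finset.mem_sdiff.2 ⟨mem_lc.2 (mem_vc.2 rfl), fun h5 => he (mem_out.1 h5)⟩
  · rw [h]
    exact Finset.mem_sdiff.2 ⟨mem_lc.2 (mem_vc.2 rfl), fun h5 => he' (mem_out.1 h5)⟩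

/-- the labels of outer edges belong to classes all of whose members are labels -/
theorem out_labelled (e : E) (he : Outer L cl e) (r : V) (hr : cl r = cl (L.lab e)) :
    Lbd L c₀ r := by
  by_contra hno
  have h1 := hgood.2.1 (L.lab e)
  have h2 := lc_card_lt hT hI (vc cl (cl (L.lab e)))
    (fun u v huv hu => mem_vc.2 ((hgood.1 u v huv).symm.trans (mem_vc.1 hu))) r (mem_vc.2 hr) hno
  have h3 : ec L (vc cl (cl (L.lab e))) = lc L (vc cl (cl (L.lab e))) :=
    Finset.eq_of_subset_of_card_le (ec_subset_lc L _) (by omega)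
  have h4 : e ∈ ec L (vc cl (cl (L.lab e))) := by
    rw [h3]
    exact mem_lc.2 (mem_vc.2 rfl)
  exact he (mem_out.1 h4)

end

/-- the step of the induction -/
theorem main_step (L : LOG V E) (hF : Forest L.ini L.ter) (c₀ : V → I) (hT : TreeP L c₀)
    (hI : InjP L c₀) (h2 : ∀ v, ∃ u, c₀ u ≠ c₀ v)
    (ih : ∀ (p : V → Prop), (∀ u v, c₀ u = c₀ v → p u → p v) → (∃ v, ¬ p v) →
      LocInd (part L p).G) : LocInd L.G := by
  by_cases hVne : Nonempty V
  swap
  · -- no vertices
    rw [not_nonempty_iff] at hVne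
    refine locInd_of_injective locInd_int (1 : L.G →* Multiplicative ℤ) ?_
    have hsub : ∀ x : L.G, x = 1 := by
      intro x
      obtain ⟨w, rfl⟩ := PresentedGroup.mk_surjective _ x
      have : w = 1 := Subsingleton.elim _ _
      rw [this, map_one]
    intro x y _
    rw [hsub x, hsub y]
  obtain ⟨cl, hgood, hmin⟩ := exists_minimal L c₀ hT h2
  have hc := hgood.1
  let Z : Finset V := Finset.univ.filter fun i =>
    (∀ v, cl v ≠ i) ∨ ∃ r, cl r = i ∧ ¬ Lbd L c₀ r
  have hZ : ∀ i, i ∉ Z → (∃ v, cl v = i) ∧ ∀ u, cl u = i → Lbd L c₀ u := by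
    intro i hi
    have h3 : ¬ ((∀ v, cl v ≠ i) ∨ ∃ r, cl r = i ∧ ¬ Lbd L c₀ r) := fun h =>
      hi (Finset.mem_filter.2 ⟨Finset.mem_univ _, h⟩)
    push Not at h3
    exact h3
  let en : E → Bool → V := fun e β => if β = true then L.ter e else L.ini e
  let tl : V → Bool → V := fun i β =>
    if h : ∃ e, Outer L cl e ∧ cl (L.lab e) = i then cl (en h.choose β) else i
  have htl : ∀ e, Outer L cl e → ∀ β, tl (cl (L.lab e)) β = cl (en e β) := by
    intro e he β
    have h : ∃ e', Outer L cl e' ∧ cl (L.lab e') = cl (L.lab e) := ⟨e, he, rfl⟩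
    have h1 : h.choose = e := out_unique hT hI hgood _ _ h.choose_spec.1 he h.choose_spec.2
    simp only [tl, dif_pos h, h1]
  by_cases hE : ∀ S : Finset V, S.Nonempty → Disjoint S Z →
      2 ≤ (Finset.univ.filter fun x : V × Bool => x.1 ∈ S ∧ tl x.1 x.2 ∉ S).card
  · -- two branchings
    obtain ⟨c, hc1, hc2⟩ := NPI.edmonds Z tl hE
    have hinj' : Function.Injective (fun e : Out L cl => cl (L.lab e.1)) := fun e e' h =>
      Subtype.ext (out_unique hT hI hgood e.1 e'.1 e.2 e'.2 h)
    have hr' : ∀ e : Out L cl, cl (L.lab e.1) ∉ Z := by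
      intro e he
      rcases (Finset.mem_filter.1 he).2 with h | ⟨r, hr, hr'⟩
      · exact h _ rfl
      · exact hr' (out_labelled hT hI hgood e.1 e.2 r hr)
    refine locInd_of_classes L cl (fun i => c i = true) ?_ ?_ ?_
    · have h3 := forest_of_branching Z _ hinj' hr' (fun v => tl v (c v)) hc1
      convert h3 using 1
      funext e
      rw [htl e.1 e.2]
      cases hc : c (cl (L.lab e.1)) <;> simp [en]
    · have h3 := forest_of_branching Z _ hinj' hr' (fun v => tl v (!c v)) hc2
      convert h3 using 1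
      funext e
      rw [htl e.1 e.2]
      cases hc : c (cl (L.lab e.1)) <;> simp [en]
    · intro i
      refine ih _ (fun u v huv hu => (hc u v huv).symm.trans hu) ?_
      by_cases hi : ∃ v, cl v = i
      · obtain ⟨v, rfl⟩ := hi
        exact hgood.2.2 v
      · push Not at hi
        obtain ⟨v⟩ := hVne
        exact ⟨v, hi v⟩
  · -- a set which is entered at most once
    push Not at hE
    obtain ⟨T, hT', hTZ, hlt⟩ := hE
    set X := Finset.univ.filter fun x : V × Bool => x.1 ∈ T ∧ tl x.1 x.2 ∉ T with hX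
    have hmX : ∀ x, x ∈ X ↔ (x.1 ∈ T ∧ tl x.1 x.2 ∉ T) := fun x => by simp [hX]
    have hone : ∀ x ∈ X, ∀ y ∈ X, x = y := Finset.card_le_one.1 (by omega)
    have hTn : ∀ i ∈ T, i ∉ Z := fun i hi => Finset.disjoint_left.1 hTZ hi
    let S : Finset V := Finset.univ.filter fun v => cl v ∈ T
    have hmS : ∀ v, v ∈ S ↔ cl v ∈ T := fun v => by simp [S]
    have hSne : S.Nonempty := by
      obtain ⟨i, hi⟩ := hT'
      obtain ⟨v, rfl⟩ := (hZ i (hTn i hi)).1
      exact ⟨v, (hmS v).2 hi⟩
    have hSlab : ∀ v ∈ S, Lbd L c₀ v := fun v hv => (hZ _ (hTn _ ((hmS v).1 hv))).2 v rfl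
    have hSc : ∀ u v, c₀ u = c₀ v → u ∈ S → v ∈ S := fun u v huv hu => by
      rw [hmS] at hu ⊢
      rw [← hc u v huv]
      exact hu
    have hDc := lc_card_eq hT hI S hSc hSlab
    obtain ⟨e₀, he₀, hout⟩ : ∃ e ∈ lc L S, ¬ (L.ini e ∈ S ∧ L.ter e ∈ S) := by
      by_contra hno
      push Not at hno
      have := hF S (lc L S) hSne hno
      omega
    have he₀l : L.lab e₀ ∈ S := mem_lc.1 he₀
    have hOut : ∀ e ∈ lc L S, ∀ β, en e β ∉ S → Outer L cl e := by
      rintro e he β hβ ⟨h3, h4⟩
      have h5 := (hmS _).1 (mem_lc.1 he)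
      refine hβ ((hmS _).2 ?_)
      cases β
      · show cl (L.ini e) ∈ T
        rw [h3]; exact h5
      · show cl (L.ter e) ∈ T
        rw [h4]; exact h5
    obtain ⟨β, hβ⟩ : ∃ β, en e₀ β ∉ S := by
      by_cases h : L.ini e₀ ∈ S
      · exact ⟨true, fun h' => hout ⟨h, h'⟩⟩
      · exact ⟨false, h⟩
    have hx0 : (cl (L.lab e₀), β) ∈ X := (hmX _).2 ⟨(hmS _).1 he₀l, by
      simp only
      rw [htl e₀ (hOut e₀ he₀ β hβ)]
      exact fun h => hβ ((hmS _).2 h)⟩
    have hin : ∀ e ∈ lc L S, ∀ γ, (e, γ) ≠ (e₀, β) → en e γ ∈ S := by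
      intro e he γ hne
      by_contra h
      have h1 := hone _ ((hmX (cl (L.lab e), γ)).2 ⟨(hmS _).1 (mem_lc.1 he), by
        simp only
        rw [htl e (hOut e he γ h)]
        exact fun h' => h ((hmS _).2 h')⟩) _ hx0
      obtain ⟨h3, h4⟩ := Prod.mk.inj h1
      refine hne (Prod.ext ?_ h4)
      exact out_unique hT hI hgood e e₀ (hOut e he γ h) (hOut e₀ he₀ β hβ) h3
    have hin1 : ∀ e ∈ lc L S, e ≠ e₀ → L.ini e ∈ S ∧ L.ter e ∈ S := fun e he hne =>
      ⟨hin e he false (fun h => hne (congrArg Prod.fst h)),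
        hin e he true (fun h => hne (congrArg Prod.fst h))⟩
    set w := en e₀ β with hw
    have hwT : cl w ∉ T := fun h => hβ ((hmS w).2 h)
    set C := vc cl (cl w) with hC
    have hdis : Disjoint S C := Finset.disjoint_left.2 fun v hv hv' => by
      have h3 := (hmS v).1 hv
      rw [mem_vc.1 hv'] at h3
      exact hwT h3
    set P := S ∪ C with hP
    have hends : L.ini e₀ ∈ P ∧ L.ter e₀ ∈ P := by
      have h1 := hin e₀ he₀ (!β) (fun h => by simp at h)
      have h3 : w ∈ P := Finset.mem_union_right _ (mem_vc.2 rfl)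
      cases β
      · exact ⟨h3, Finset.mem_union_left _ h1⟩
      · exact ⟨Finset.mem_union_left _ h1, h3⟩
    have hsub1 : lc L S ⊆ ec L P := by
      intro e he
      have hl : L.lab e ∈ P := Finset.mem_union_left _ (mem_lc.1 he)
      by_cases hee : e = e₀
      · rw [hee] at hl ⊢
        exact mem_ec.2 ⟨hends.1, hends.2, hl⟩
      · exact mem_ec.2 ⟨Finset.mem_union_left _ (hin1 e he hee).1,
          Finset.mem_union_left _ (hin1 e he hee).2, hl⟩
    have hsub2 : ec L C ⊆ ec L P := fun e he => mem_ec.2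
      ⟨Finset.mem_union_right _ (mem_ec.1 he).1, Finset.mem_union_right _ (mem_ec.1 he).2.1,
        Finset.mem_union_right _ (mem_ec.1 he).2.2⟩
    have hdis2 : Disjoint (lc L S) (ec L C) := Finset.disjoint_left.2 fun e he he' =>
      (Finset.disjoint_left.1 hdis (mem_lc.1 he)) (mem_ec.1 he').2.2
    have hPc : P.card = S.card + C.card := Finset.card_union_of_disjoint hdis
    have hPne : P.Nonempty := hSne.mono Finset.subset_union_left
    have hCc : C.card = (ec L C).card + 1 := hgood.2.1 w
    have hePc : (ec L P).card + 1 = P.card := by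
      have h3 := ec_card L hF P hPne
      have h4 := Finset.card_le_card (Finset.union_subset hsub1 hsub2)
      rw [Finset.card_union_of_disjoint hdis2] at h4
      omega
    have hClP : ∀ u v, cl u = cl v → u ∈ P → v ∈ P := by
      intro u v huv hu
      rcases Finset.mem_union.1 hu with h | h
      · exact Finset.mem_union_left _ ((hmS v).2 (huv ▸ (hmS u).1 h))
      · exact Finset.mem_union_right _ (mem_vc.2 (huv ▸ mem_vc.1 h))
    by_cases hPu : P = Finset.univ
    · -- two parts
      have hCS : ∀ v, v ∉ S → v ∈ C := fun v hv => by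
        have h3 : v ∈ P := by rw [hPu]; exact Finset.mem_univ _
        exact (Finset.mem_union.1 h3).resolve_left hv
      have hall := hF Finset.univ Finset.univ ⟨w, Finset.mem_univ _⟩ (fun e _ =>
        ⟨Finset.mem_univ _, Finset.mem_univ _⟩)
      rw [← hPu] at hall
      have hlcC : ec L C = Finset.univ \ lc L S := by
        refine Finset.eq_of_subset_of_card_le (fun e he => Finset.mem_sdiff.2
          ⟨Finset.mem_univ _, fun h => Finset.disjoint_left.1 hdis2 h he⟩) ?_
        have h3 := Finset.card_sdiff_add_card_eq_card (Finset.subset_univ (lc L S))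
        omega
      have hnS : ∀ v ∈ C, v ∉ S := fun v hv h => Finset.disjoint_left.1 hdis h hv
      refine locInd_two L (fun v => v ∈ S) e₀ he₀l ?_ ?_ (ih _ hSc ⟨w, hβ⟩)
        (ih _ (fun u v huv hu hv => hu (hSc v u huv.symm hv)) ?_)
      · have h1 := hin e₀ he₀ (!β) (fun h => by simp at h)
        cases β
        · exact Or.inr ⟨hβ, h1⟩
        · exact Or.inl ⟨h1, hβ⟩
      · intro e hne
        by_cases he : e ∈ lc L S
        · exact Or.inl ⟨(hin1 e he hne).1, (hin1 e he hne).2, mem_lc.1 he⟩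
        · have h3 : e ∈ ec L C := by
            rw [hlcC]
            exact Finset.mem_sdiff.2 ⟨Finset.mem_univ _, he⟩
          obtain ⟨h4, h5, h6⟩ := mem_ec.1 h3
          exact Or.inr ⟨hnS _ h4, hnS _ h5, hnS _ h6⟩
      · obtain ⟨v, hv⟩ := hSne
        exact ⟨v, not_not.2 hv⟩
    · -- a coarser partition
      exfalso
      obtain ⟨v₁, hv₁⟩ : ∃ v, v ∉ P := by
        by_contra hno
        push Not at hno
        exact hPu (Finset.eq_univ_iff_forall.2 hno)
      let cl' : V → V := fun v => if v ∈ P then cl w else cl v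
      have hcl'1 : ∀ v ∈ P, cl' v = cl w := fun v hv => if_pos hv
      have hcl'2 : ∀ v, v ∉ P → cl' v = cl v := fun v hv => if_neg hv
      have hclw : ∀ v, v ∉ P → cl v ≠ cl w := fun v hv h =>
        hv (hClP w v h.symm (Finset.mem_union_right _ (mem_vc.2 rfl)))
      have hvc1 : vc cl' (cl w) = P := by
        ext v
        rw [mem_vc]
        constructor
        · intro h
          by_contra hv
          rw [hcl'2 v hv] at h
          exact hclw v hv h
        · exact hcl'1 v
      have hvc2 : ∀ v, v ∉ P → vc cl' (cl v) = vc cl (cl v) := by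
        intro v hv
        ext u
        rw [mem_vc, mem_vc]
        by_cases hu : u ∈ P
        · rw [hcl'1 u hu]
          constructor
          · intro h; exact absurd h.symm (hclw v hv)
          · intro h; exact absurd (hClP u v h hu) hv
        · rw [hcl'2 u hu]
      have hgood' : GoodP L c₀ cl' := by
        refine ⟨?_, ?_, ?_⟩
        · intro u v huv
          by_cases hu : u ∈ P
          · rw [hcl'1 u hu, hcl'1 v (hClP u v (hc u v huv) hu)]
          · rw [hcl'2 u hu, hcl'2 v (fun h => hu (hClP v u (hc u v huv).symm h)), hc u v huv]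
        · intro v
          by_cases hv : v ∈ P
          · rw [hcl'1 v hv, hvc1]
            exact hePc.symm
          · rw [hcl'2 v hv, hvc2 v hv]
            exact hgood.2.1 v
        · intro v
          by_cases hv : v ∈ P
          · refine ⟨v₁, ?_⟩
            rw [hcl'2 v₁ hv₁, hcl'1 v hv]
            exact hclw v₁ hv₁
          · refine ⟨w, ?_⟩
            rw [hcl'1 w (Finset.mem_union_right _ (mem_vc.2 rfl)), hcl'2 v hv]
            exact (hclw v hv).symm
      have h3 := hmin cl' hgood'
      have h4 : (Finset.univ.image cl').card < (Finset.univ.image cl).card := by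
        refine Finset.card_lt_card (Finset.ssubset_iff_subset_ne.2 ⟨?_, ?_⟩)
        · intro i hi
          obtain ⟨v, _, rfl⟩ := Finset.mem_image.1 hi
          by_cases hv : v ∈ P
          · rw [hcl'1 v hv]; exact Finset.mem_image_of_mem _ (Finset.mem_univ _)
          · rw [hcl'2 v hv]; exact Finset.mem_image_of_mem _ (Finset.mem_univ _)
        · intro h
          obtain ⟨v, hv⟩ := hSne
          have h5 : cl v ∈ Finset.univ.image cl' := by
            rw [h]; exact Finset.mem_image_of_mem _ (Finset.mem_univ _)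
          obtain ⟨u, _, hu⟩ := Finset.mem_image.1 h5
          by_cases huP : u ∈ P
          · rw [hcl'1 u huP] at hu
            exact hwT (hu ▸ (hmS v).1 hv)
          · rw [hcl'2 u huP] at hu
            exact huP (hClP v u hu.symm (Finset.mem_union_left _ hv))
      omega

end partition

theorem locInd_of_isEmpty {V E : Type} (L : LOG V E) (h : IsEmpty V) : LocInd L.G := by
  refine locInd_of_injective locInd_int (1 : L.G →* Multiplicative ℤ) ?_
  have hsub : ∀ x : L.G, x = 1 := by
    intro x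
    obtain ⟨w, rfl⟩ := PresentedGroup.mk_surjective _ x
    have : w = 1 := Subsingleton.elim _ _
    rw [this, map_one]
  intro x y _
  rw [hsub x, hsub y]

theorem locInd_of_part_all {V E : Type} (L : LOG V E) (p : V → Prop) (hp : ∀ v, p v)
    (h : LocInd (part L p).G) : LocInd L.G := by
  let f : L.G →* (part L p).G := liftG L (fun v => (part L p).gen ⟨v, hp v⟩) fun e =>
    gen_rel (part L p) ⟨e, hp _, hp _, hp _⟩
  have hcomp : (partHom L p).comp f = MonoidHom.id _ := by
    apply hom_ext
    intro v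
    show partHom L p (f (L.gen v)) = L.gen v
    rw [show f (L.gen v) = _ from liftG_gen _ _ _ _]
    exact partHom_gen L p ⟨v, hp v⟩
  refine locInd_of_injective h f ?_
  intro x y hxy
  have := congrArg (partHom L p) hxy
  have hx := DFunLike.congr_fun hcomp x
  have hy := DFunLike.congr_fun hcomp y
  exact hx.symm.trans (this.trans hy)

open Classical in
/-- **The quotient theorem.**  If the classes of a labelled oriented forest are trees with locally
indicable groups and the quotient is injective, then the group is locally indicable. -/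
theorem locInd_quotient (I : Type) : ∀ (n : ℕ) (V E : Type) [Fintype V] [Fintype E]
    (L : LOG V E) (c₀ : V → I), (Finset.univ.image c₀).card = n → Forest L.ini L.ter →
    TreeP L c₀ → InjP L c₀ → (∀ v, LocInd (part L fun u => c₀ u = c₀ v).G) → LocInd L.G := by
  intro n
  induction n using Nat.strong_induction_on with
  | _ n ih =>
    intro V E _ _ L c₀ hn hF hT hI hLI
    by_cases h2 : ∀ v, ∃ u, c₀ u ≠ c₀ v
    · refine main_step L hF c₀ hT hI h2 fun p hp hne => ?_
      obtain ⟨v₁, hv₁⟩ := hne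
      refine ih (Finset.univ.image fun v : {v // p v} => c₀ v.1).card ?_ _ _ (part L p)
        (fun v => c₀ v.1) rfl ?_ ?_ ?_ ?_
      · rw [← hn]
        refine Finset.card_lt_card (Finset.ssubset_iff_subset_ne.2 ⟨?_, ?_⟩)
        · intro i hi
          obtain ⟨v, _, rfl⟩ := Finset.mem_image.1 hi
          exact Finset.mem_image_of_mem _ (Finset.mem_univ _)
        · intro h
          have h3 : c₀ v₁ ∈ Finset.univ.image fun v : {v // p v} => c₀ v.1 := by
            rw [h]; exact Finset.mem_image_of_mem _ (Finset.mem_univ _)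
          obtain ⟨u, _, hu⟩ := Finset.mem_image.1 h3
          exact hv₁ (hp u.1 v₁ hu u.2)
      · exact hF.comap _ _ Subtype.val Subtype.val Subtype.val_injective Subtype.val_injective
          (fun _ => rfl) (fun _ => rfl)
      · intro v
        have h3 : (vc (fun v : {v // p v} => c₀ v.1) (c₀ v.1)).card = (vc c₀ (c₀ v.1)).card := by
          rw [← Finset.card_image_of_injective _ Subtype.val_injective]
          congr 1
          ext u
          rw [Finset.mem_image, mem_vc]
          constructor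
          · rintro ⟨u', hu', rfl⟩
            have h5 := mem_vc.1 hu'
            exact h5
          · intro hu
            exact ⟨⟨u, hp v.1 u hu.symm v.2⟩, mem_vc.2 hu, rfl⟩
        have h4 : (ec (part L p) (vc (fun v : {v // p v} => c₀ v.1) (c₀ v.1))).card =
            (ec L (vc c₀ (c₀ v.1))).card := by
          rw [← Finset.card_image_of_injective _ Subtype.val_injective]
          congr 1
          ext e
          rw [Finset.mem_image, mem_ec, mem_vc, mem_vc, mem_vc]
          constructor
          · rintro ⟨e', he', rfl⟩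
            obtain ⟨h5, h6, h7⟩ := mem_ec.1 he'
            have g5 := mem_vc.1 h5
            have g6 := mem_vc.1 h6
            have g7 := mem_vc.1 h7
            exact ⟨g5, g6, g7⟩
          · rintro ⟨h5, h6, h7⟩
            exact ⟨⟨e, hp v.1 _ h5.symm v.2, hp v.1 _ h6.symm v.2, hp v.1 _ h7.symm v.2⟩,
              mem_ec.2 ⟨mem_vc.2 h5, mem_vc.2 h6, mem_vc.2 h7⟩, rfl⟩
        rw [h3, h4]
        exact hT v.1
      · intro e e' he he' h
        exact Subtype.ext (hI e.1 e'.1 he he' h)
      · intro v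
        refine locInd_part_part L p _ (fun u => c₀ u = c₀ v.1) ?_ (hLI v.1)
        intro u
        exact ⟨fun h => ⟨hp v.1 u h.symm v.2, h⟩, fun ⟨_, h⟩ => h⟩
    · push Not at h2
      obtain ⟨v, hv⟩ := h2
      exact locInd_of_part_all L _ hv (hLI v)

/-- the group of one vertex without edges -/
theorem locInd_of_single {V E : Type} (L : LOG V E) (v₀ : V) (hv : ∀ v, v = v₀) : LocInd L.G := by
  refine locInd_of_injective locInd_int (degG _) ?_
  rw [injective_iff_map_eq_one]
  intro x hx
  have h5 : ∀ x : L.G, ∃ k : ℤ, x = (L.gen v₀) ^ k := by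
    intro x
    obtain ⟨w, rfl⟩ := PresentedGroup.mk_surjective _ x
    refine FreeGroup.induction_on (C := fun w => ∃ k : ℤ,
      (PresentedGroup.mk (Set.range L.rel)) w = (L.gen v₀) ^ k) w ?_ ?_ ?_ ?_
    · exact ⟨0, by rw [map_one, zpow_zero]⟩
    · intro v
      refine ⟨1, ?_⟩
      rw [zpow_one, hv v]
      rfl
    · intro v _
      refine ⟨-1, ?_⟩
      rw [map_inv, zpow_neg_one, hv v]
      rfl
    · rintro x y ⟨k, hk⟩ ⟨l, hl⟩
      exact ⟨k + l, by rw [map_mul, hk, hl, zpow_add]⟩
  obtain ⟨k, rfl⟩ := h5 x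
  rw [map_zpow, degG_gen, ← ofAdd_zsmul, smul_eq_mul, mul_one, ofAdd_eq_one] at hx
  rw [hx, zpow_zero]

open Classical in
/-- **Injective labelled oriented forests have locally indicable groups.** -/
theorem locInd_of_lof {V E : Type} [Fintype V] [Fintype E] (L : LOG V E)
    (hF : Forest L.ini L.ter) (hinj : Function.Injective L.lab) : LocInd L.G := by
  refine locInd_quotient V _ V E L id rfl hF ?_ ?_ ?_
  · intro v
    have h1 : vc (id : V → V) (id v) = {v} := by
      ext u; simp [vc]
    have h3 : ec L ({v} : Finset V) = ∅ := by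
      by_contra hne
      have h4 := hF {v} (ec L {v}) (Finset.singleton_nonempty v) (fun e he =>
        ⟨(mem_ec.1 he).1, (mem_ec.1 he).2.1⟩)
      have h5 := Finset.card_pos.2 (Finset.nonempty_iff_ne_empty.2 hne)
      rw [Finset.card_singleton] at h4
      omega
    rw [h1, h3]
    rfl
  · intro e e' _ _ h
    exact hinj h
  · intro v
    exact locInd_of_single _ ⟨v, rfl⟩ fun u => Subtype.ext u.2

end Pool.Agent.V5helper80.Rel
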