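import Pool.Agent.V5helper80.Rel.Int

/-!
# Local indicability of the quotient of a free product
-/

set_option autoImplicit false

namespace Pool.Agent.V5helper80.Rel

open Monoid (CoprodI)
open Monoid.CoprodI (of)
open Pool.Agent.TH625.LOG

variable {I E : Type} {G : I → Type} [∀ i, Group (G i)]

section cosets
variable (M : Subgroup (CoprodI G))

/-- the base point -/
def bp : CoprodI G ⧸ M := ((1 : CoprodI G) : CoprodI G ⧸ M)

variable {M}

theorem mv_bp {m : CoprodI G} (hm : m ∈ M) : mv m (bp M) = bp M := by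
  unfold mv bp
  rw [MulAction.Quotient.smul_coe, smul_eq_mul, mul_one, QuotientGroup.eq]
  simpa using hm

theorem mem_of_mv_bp {m : CoprodI G} (h : mv m (bp M) = bp M) : m ∈ M := by
  unfold mv bp at h
  rw [MulAction.Quotient.smul_coe, smul_eq_mul, mul_one, QuotientGroup.eq] at h
  simpa using h

theorem bp_transitive (a : CoprodI G ⧸ M) : ∃ g : CoprodI G, a = mv g (bp M) := by
  induction a using QuotientGroup.induction_on with
  | H x =>
    refine ⟨x⁻¹, ?_⟩
    unfold mv bp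
    rw [inv_inv, MulAction.Quotient.smul_coe, smul_eq_mul, mul_one]

/-- the elements of `M` with integral zero -/
def Zer (c : ∀ i, (CoprodI G ⧸ M) → G i → ℚ) (hc : IsCoc c) : Subgroup (CoprodI G) where
  carrier := {m | m ∈ M ∧ J c hc m (bp M) = 0}
  one_mem' := ⟨M.one_mem, J_one c hc _⟩
  mul_mem' := by
    rintro x y ⟨hx, hx'⟩ ⟨hy, hy'⟩
    refine ⟨M.mul_mem hx hy, ?_⟩
    rw [J_mul, hx', mv_bp hx, hy', add_zero]
  inv_mem' := by
    rintro x ⟨hx, hx'⟩
    refine ⟨M.inv_mem hx, ?_⟩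
    rw [J_inv, mv_bp (M.inv_mem hx), hx', neg_zero]

variable {c : ∀ i, (CoprodI G ⧸ M) → G i → ℚ} (hc : IsCoc c)

include hc

theorem J_add {x y : CoprodI G} (hx : x ∈ M) :
    J c hc (x * y) (bp M) = J c hc x (bp M) + J c hc y (bp M) := by
  rw [J_mul, mv_bp hx]

theorem comm_le_Zer : ⁅M, M⁆ ≤ Zer c hc := by
  rw [Subgroup.commutator_le]
  intro x hx y hy
  refine ⟨M.mul_mem (M.mul_mem (M.mul_mem hx hy) (M.inv_mem hx)) (M.inv_mem hy), ?_⟩
  rw [commutatorElement_def, J_add hc (M.mul_mem (M.mul_mem hx hy) (M.inv_mem hx)),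
    J_add hc (M.mul_mem hx hy), J_add hc hx, J_inv, J_inv, mv_bp (M.inv_mem hx),
    mv_bp (M.inv_mem hy)]
  ring

theorem J_pow {x : CoprodI G} (hx : x ∈ M) (N : ℕ) :
    J c hc (x ^ N) (bp M) = N * J c hc x (bp M) := by
  induction N with
  | zero => rw [pow_zero, J_one]; simp
  | succ N ih =>
    rw [pow_succ, J_add hc (M.pow_mem hx N), ih]
    push_cast
    ring

theorem mem_Zer_of_pow {x : CoprodI G} (hx : x ∈ M) {N : ℕ} (hN : 0 < N) (h : x ^ N ∈ Zer c hc) :
    x ∈ Zer c hc := by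
  refine ⟨hx, ?_⟩
  have h1 := h.2
  rw [J_pow hc hx N] at h1
  rcases mul_eq_zero.1 h1 with h2 | h2
  · exact absurd (Nat.cast_eq_zero.1 h2) hN.ne'
  · exact h2

omit hc in
/-- the closed relator path -/
theorem closed_of_mem (D : Dat I E G) (e : E) (g : CoprodI G) (hm : g * D.rel e * g⁻¹ ∈ M) :
    D.Closed (e, mv g (bp M)) := by
  have h2 := mv_bp hm
  rw [mv_mul, mv_mul] at h2
  have h3 : mv (D.rel e) (mv g (bp M)) = mv g (bp M) := by
    have h4 := congrArg (mv g) h2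
    rwa [mv_inv'] at h4
  unfold Dat.rel at h3
  rw [mv_mul] at h3
  have h5 := congrArg (mv (D.en e 3)) h3
  rw [mv_inv'] at h5
  exact h5

theorem J_line (D : Dat I E G) (e : E) (g : CoprodI G) (hm : g * D.rel e * g⁻¹ ∈ M)
    (hE : D.Eqn c (e, mv g (bp M))) : g * D.rel e * g⁻¹ ∈ Zer c hc := by
  refine ⟨hm, ?_⟩
  have hcl := closed_of_mem D e g hm
  have hcl' : mv (D.en e 1) (mv g (bp M)) = mv (D.en e 3) (mv g (bp M)) := hcl
  set a := mv g (bp M) with ha
  have hga : mv g⁻¹ a = bp M := by rw [ha, mv_inv]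
  have h1 : J c hc (D.en e 1) a = c _ (D.pos (e, a) 0 false) (D.sd e 0).2 +
      c _ (D.pos (e, a) 1 false) (D.sd e 1).2 := by
    have h : D.en e 1 = of (D.sd e 0).2 * of (D.sd e 1).2 := rfl
    rw [h, J_mul, J_of, J_of]
    have h' : D.pos (e, a) 0 false = a := mv_one a
    rw [h']
    rfl
  have h3 : J c hc (D.en e 3) a = c _ (D.pos (e, a) 2 false) (D.sd e 2).2 +
      c _ (D.pos (e, a) 3 false) (D.sd e 3).2 := by
    have h : D.en e 3 = of (D.sd e 2).2 * of (D.sd e 3).2 := rfl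
    rw [h, J_mul, J_of, J_of]
    have h' : D.pos (e, a) 2 false = a := mv_one a
    rw [h']
    rfl
  have hr : J c hc (D.rel e) a = 0 := by
    unfold Dat.rel
    rw [J_mul, J_inv, hcl', mv_inv, h1, h3]
    unfold Dat.Eqn at hE
    simp only at hE
    linarith
  have hra : mv (D.rel e) a = a := by
    unfold Dat.rel
    rw [mv_mul, hcl', mv_inv]
  rw [mul_assoc, J_mul, J_mul, ← ha, hr, hra, J_inv, hga]
  ring

theorem coboundary (hM : M ≤ Zer c hc) :
    ∃ δ : (CoprodI G ⧸ M) → ℚ, ∀ i a (g : G i), c i a g = δ (mv (of g) a) - δ a := by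
  classical
  choose γ hγ using (bp_transitive (M := M))
  let δ : (CoprodI G ⧸ M) → ℚ := fun a => J c hc (γ a) (bp M)
  have key : ∀ g : CoprodI G, δ (mv g (bp M)) = J c hc g (bp M) := by
    intro g
    set a := mv g (bp M) with ha
    have h1 : mv (g * (γ a)⁻¹) (bp M) = bp M := by
      have h4 := congrArg (mv (γ a)⁻¹) (hγ a)
      rw [mv_inv] at h4
      rw [mv_mul, ← ha]
      exact h4
    have h2 := mem_of_mv_bp h1
    have h3 : g = (g * (γ a)⁻¹) * γ a := by group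
    show J c hc (γ a) _ = _
    conv_rhs => rw [h3]
    rw [J_add hc h2, (hM h2).2, zero_add]
  refine ⟨δ, ?_⟩
  intro i a g
  have h1 : mv (of g) a = mv (γ a * of g) (bp M) := by
    rw [mv_mul, ← hγ a]
  show c i a g = δ (mv (of g) a) - δ a
  rw [h1, key, J_mul, ← hγ a, J_of]
  show c i a g = J c hc (γ a) _ + c i a g - J c hc (γ a) _
  ring

end cosets

theorem stbF_fg (M : Subgroup (CoprodI G)) (hM : M.FG) (a : CoprodI G ⧸ M) :
    (StbF G a).FG := by
  obtain ⟨g, rfl⟩ := bp_transitive a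
  have h1 : StbF G (mv g (bp M)) = M.map (MulAut.conj g⁻¹).toMonoidHom := by
    ext w
    constructor
    · intro hw
      have h2 : mv w (mv g (bp M)) = mv g (bp M) := hw
      refine ⟨g * w * g⁻¹, mem_of_mv_bp ?_, ?_⟩
      · rw [mv_mul, mv_mul, h2, mv_inv]
      · show g⁻¹ * (g * w * g⁻¹) * (g⁻¹)⁻¹ = w
        group
    · rintro ⟨m, hm, rfl⟩
      show mv (g⁻¹ * m * (g⁻¹)⁻¹) (mv g (bp M)) = mv g (bp M)
      rw [inv_inv, mv_mul, mv_mul, mv_inv, mv_bp hm]
  rw [h1]
  obtain ⟨T, hT⟩ := hM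
  classical
  exact ⟨T.image (MulAut.conj g⁻¹).toMonoidHom, by
    rw [Finset.coe_image, ← MonoidHom.map_closure, hT]⟩

/-- the edges of a path -/
theorem path_edges (M : Subgroup (CoprodI G)) {Q : Type} [Group Q] (π : CoprodI G →* Q)
    (w : CoprodI G) : ∀ a : CoprodI G ⧸ M, ∃ P : Finset ((CoprodI G ⧸ M) × I),
      ∀ p : (CoprodI G ⧸ M) → Q, Pot π (P : Set ((CoprodI G ⧸ M) × I)) p →
        p (mv w a) = p a * π w := by
  classical
  induction w using Monoid.CoprodI.induction_on with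
  | one =>
    intro a
    refine ⟨∅, fun p _ => ?_⟩
    rw [mv_one, map_one, mul_one]
  | of i g =>
    intro a
    refine ⟨{(a, i), (mv (of g) a, i)}, fun p hp => ?_⟩
    exact hp i a g (by simp) (by simp)
  | mul x y hx hy =>
    intro a
    obtain ⟨P, hP⟩ := hx a
    obtain ⟨P', hP'⟩ := hy (mv x a)
    refine ⟨P ∪ P', fun p hp => ?_⟩
    rw [mv_mul, hP' p (hp.mono (by simp)), hP p (hp.mono (by simp)), map_mul, mul_assoc]

/-- consequences of relators need only finitely many conjugates -/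
theorem exists_lines {F : Type} [Group F] (R : E → F) (w : F)
    (hw : w ∈ Subgroup.normalClosure (Set.range R)) :
    ∃ C : Finset (E × F), w ∈ Subgroup.closure {x | ∃ q ∈ C, x = q.2 * R q.1 * q.2⁻¹} := by
  classical
  have h1' : w ∈ Subgroup.closure (Group.conjugatesOfSet (Set.range R)) := hw
  refine Subgroup.closure_induction (p := fun w _ => ∃ C : Finset (E × F),
      w ∈ Subgroup.closure {x | ∃ q ∈ C, x = q.2 * R q.1 * q.2⁻¹}) ?_ ?_ ?_ ?_ h1'
  · intro x hx
    obtain ⟨r, ⟨e, rfl⟩, hr⟩ := Group.mem_conjugatesOfSet_iff.1 hx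
    obtain ⟨g, hg⟩ := isConj_iff.1 hr
    refine ⟨{(e, g)}, Subgroup.subset_closure ⟨(e, g), Finset.mem_singleton_self _, hg.symm⟩⟩
  · exact ⟨∅, Subgroup.one_mem _⟩
  · rintro x y _ _ ⟨C, hC⟩ ⟨D, hD⟩
    refine ⟨C ∪ D, Subgroup.mul_mem _ (Subgroup.closure_mono ?_ hC) (Subgroup.closure_mono ?_ hD)⟩
    · rintro z ⟨q, hq, hz⟩; exact ⟨q, Finset.mem_union_left _ hq, hz⟩
    · rintro z ⟨q, hq, hz⟩; exact ⟨q, Finset.mem_union_right _ hq, hz⟩
  · rintro x _ ⟨C, hC⟩
    exact ⟨C, Subgroup.inv_mem _ hC⟩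

/-- **Local indicability from the two forests.** -/
theorem locInd_rel (D : Dat I E G) (J : I → Prop)
    (h0 : Forest D.cl (D.gc J)) (h1 : Forest D.cl (D.gc (fun i => ¬ J i)))
    (ht : ∀ i, G i →* Multiplicative ℤ) (hpos : ∀ e k, 0 < (ht _ (D.sd e k).2).toAdd)
    (hLI : ∀ i, LocInd (G i)) {Q : Type} [Group Q] (π : CoprodI G →* Q)
    (hsurj : Function.Surjective π) (hker : π.ker = Subgroup.normalClosure (Set.range D.rel)) :
    LocInd Q := by
  classical
  intro H hH hne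
  by_contra hno
  apply hne
  obtain ⟨S, hS⟩ := hH
  choose lf hlf using hsurj
  let W : Finset (CoprodI G) := S.image lf
  have hWS : ∀ w ∈ W, π w ∈ H := by
    intro w hw
    obtain ⟨s, hs, rfl⟩ := Finset.mem_image.1 hw
    rw [hlf, ← hS]
    exact Subgroup.subset_closure hs
  let K : Subgroup (CoprodI G) := Subgroup.closure (W : Set (CoprodI G))
  have hK : K.map π = H := by
    rw [MonoidHom.map_closure, ← hS]
    congr 1
    ext x
    constructor
    · rintro ⟨w, hw, rfl⟩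
      obtain ⟨s, hs, rfl⟩ := Finset.mem_image.1 (Finset.mem_coe.1 hw)
      rw [hlf]; exact hs
    · intro hx
      exact ⟨lf x, Finset.mem_coe.2 (Finset.mem_image_of_mem lf hx), hlf x⟩
  have hex : ∀ w : CoprodI G, ∃ C : Finset (E × CoprodI G), w ∈ W →
      ∃ N : ℕ, 0 < N ∧ ∃ k ∈ ⁅K, K⁆,
        w ^ N * k⁻¹ ∈ Subgroup.closure {x | ∃ q ∈ C, x = q.2 * D.rel q.1 * q.2⁻¹} := by
    intro w
    by_cases hw : w ∈ W
    · obtain ⟨N, hN, h1⟩ := NPI.pow_mem_commutator H ⟨S, hS⟩ hno (π w) (hWS w hw)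
      rw [← hK, ← Subgroup.map_commutator] at h1
      obtain ⟨k, hk, hk2⟩ := h1
      obtain ⟨C, hC⟩ := exists_lines D.rel (w ^ N * k⁻¹) (by
        rw [← hker, MonoidHom.mem_ker, map_mul, map_inv, map_pow, hk2, mul_inv_cancel])
      exact ⟨C, fun _ => ⟨N, hN, k, hk, hC⟩⟩
    · exact ⟨∅, fun h => absurd h hw⟩
  choose Cf hCf using hex
  let C : Finset (E × CoprodI G) := W.biUnion Cf
  let lines : Finset (CoprodI G) := C.image fun q => q.2 * D.rel q.1 * q.2⁻¹
  let M : Subgroup (CoprodI G) := Subgroup.closure ((W ∪ lines : Finset (CoprodI G)) : Set _)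
  have hMfg : M.FG := ⟨W ∪ lines, rfl⟩
  have hKM : K ≤ M := Subgroup.closure_mono (by simp)
  have hWM : ∀ w ∈ W, w ∈ M := fun w hw => hKM (Subgroup.subset_closure hw)
  have hline : ∀ q ∈ C, q.2 * D.rel q.1 * q.2⁻¹ ∈ M := fun q hq =>
    Subgroup.subset_closure (Finset.mem_coe.2 (Finset.mem_union_right _
      (Finset.mem_image_of_mem _ hq)))
  let F : Finset (E × (CoprodI G ⧸ M)) := C.image fun q => (q.1, mv q.2 (bp M))
  choose P hP using fun w => path_edges M π w (bp M)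
  let T : Finset ((CoprodI G ⧸ M) × I) :=
    (F.biUnion fun f => Finset.univ.image (D.ts f)) ∪ W.biUnion P
  have hcl : ∀ f ∈ F, D.Closed f := by
    intro f hf
    obtain ⟨q, hq, rfl⟩ := Finset.mem_image.1 hf
    exact closed_of_mem D q.1 q.2 (hline q hq)
  have hCx : D.Cplx T F := by
    intro f hf
    refine ⟨hcl f hf, fun k => Finset.mem_union_left _ ?_⟩
    exact Finset.mem_biUnion.2 ⟨f, hf, Finset.mem_image_of_mem _ (Finset.mem_univ _)⟩
  have hz : D.HZ T F := by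
    intro c hc hcE
    have hMZ : M ≤ Zer c hc := by
      have hl : ∀ q ∈ C, q.2 * D.rel q.1 * q.2⁻¹ ∈ Zer c hc := fun q hq =>
        J_line hc D q.1 q.2 (hline q hq) (hcE _ (Finset.mem_image_of_mem _ hq))
      rw [Subgroup.closure_le]
      intro w hw
      rcases Finset.mem_union.1 (Finset.mem_coe.1 hw) with hw | hw
      · obtain ⟨N, hN, k, hk, h1⟩ := hCf w hw
        have h2 : w ^ N * k⁻¹ ∈ Zer c hc := by
          refine (Subgroup.closure_le _).2 ?_ h1
          rintro x ⟨q, hq, rfl⟩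
          exact hl q (Finset.mem_biUnion.2 ⟨w, hw, hq⟩)
        have h3 : k ∈ Zer c hc := comm_le_Zer hc (Subgroup.commutator_mono hKM hKM hk)
        have h4 : w ^ N ∈ Zer c hc := by
          have := (Zer c hc).mul_mem h2 h3
          rwa [inv_mul_cancel_right] at this
        exact mem_Zer_of_pow hc (hWM w hw) hN h4
      · obtain ⟨q, hq, rfl⟩ := Finset.mem_image.1 hw
        exact hl q hq
    obtain ⟨δ, hδ⟩ := coboundary hc hMZ
    exact ⟨δ, fun i a g _ _ => hδ i a g⟩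
  have hπ : ∀ e, π (D.rel e) = 1 := by
    intro e
    rw [← MonoidHom.mem_ker, hker]
    exact Subgroup.subset_normalClosure ⟨e, rfl⟩
  have hst : ∀ (i : I) (a : CoprodI G ⧸ M) (g : G i), ¬ Live (orb G (a, i)) →
      mv (of g) a = a → π (of g) = 1 := by
    intro i a g hd hg
    rw [stb_trivial hLI i a (stbF_fg M hMfg a) hd g hg, map_one, map_one]
  obtain ⟨p, hp⟩ := (triv_iff π T).1 (triv_of_HZ π hπ hst h0 h1 ht hpos _ T F rfl hCx hz)
  have hone : ∀ w ∈ W, π w = 1 := by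
    intro w hw
    have h1 := hP w p (hp.mono (by
      intro x hx
      exact Finset.mem_coe.2 (Finset.mem_union_right _
        (Finset.mem_biUnion.2 ⟨w, hw, Finset.mem_coe.1 hx⟩))))
    rw [mv_bp (hWM w hw)] at h1
    exact (mul_eq_left.1 h1.symm)
  rw [← hS, Subgroup.closure_eq_bot_iff]
  intro x hx
  have h1 := hone (lf x) (Finset.mem_image_of_mem lf hx)
  rw [hlf] at h1
  exact h1

end Pool.Agent.V5helper80.Rel
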