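import Pool.Agent.TH625.LOG.Core

/-!
# Labelled oriented graphs with a partition of the vertices: definitions
-/

set_option autoImplicit false

namespace Pool.Agent.V5helper80.Rel

open Pool.Agent.TH625.LOG

/-- the part of `L` spanned by the vertices with `p`: the edges are those whose end points and
labels have the property `p` -/
def part {V E : Type} (L : LOG V E) (p : V → Prop) :
    LOG {v // p v} {e // p (L.ini e) ∧ p (L.ter e) ∧ p (L.lab e)} where
  ini e := ⟨L.ini e.1, e.2.1⟩
  ter e := ⟨L.ter e.1, e.2.2.1⟩
  lab e := ⟨L.lab e.1, e.2.2.2⟩

section partition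
open Classical
variable {V E I : Type} [Fintype V] [Fintype E]

/-- the vertices of a class -/
noncomputable def vc (cl : V → I) (i : I) : Finset V := Finset.univ.filter fun v => cl v = i

/-- the edges which belong to a set of vertices: end points and label are elements -/
noncomputable def ec (L : LOG V E) (P : Finset V) : Finset E :=
  Finset.univ.filter fun e => L.ini e ∈ P ∧ L.ter e ∈ P ∧ L.lab e ∈ P

/-- the edge does not belong to a class -/
def Outer (L : LOG V E) (cl : V → I) (e : E) : Prop :=
  ¬ (cl (L.ini e) = cl (L.lab e) ∧ cl (L.ter e) = cl (L.lab e))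

/-- all classes are trees: one vertex more than edges -/
def TreeP (L : LOG V E) (cl : V → I) : Prop :=
  ∀ v, (vc cl (cl v)).card = (ec L (vc cl (cl v))).card + 1

/-- the labels of the outer edges belong to different classes -/
def InjP (L : LOG V E) (cl : V → I) : Prop :=
  ∀ e e', Outer L cl e → Outer L cl e' → cl (L.lab e) = cl (L.lab e') → e = e'

end partition

end Pool.Agent.V5helper80.Rel
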