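import Pool.Agent.V5helper80.Rel.Li
import Pool.Agent.V5helper80.Rel.Stm
import Pool.Agent.TH625.LOG.Main

/-!
# Labelled oriented graphs with a partition of the vertices
-/

set_option autoImplicit false

namespace Pool.Agent.V5helper80.Rel

open Monoid (CoprodI)
open Monoid.CoprodI (of)
open Pool.Agent.TH625.LOG

variable {V E : Type}

theorem locInd_of_injective {G H : Type} [Group G] [Group H] (hH : LocInd H) (f : G →* H)
    (hf : Function.Injective f) : LocInd G := by
  intro K hK hne
  refine hH.of_hom hK f ?_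
  intro h
  apply hne
  rw [Subgroup.eq_bot_iff_forall]
  intro x hx
  have h1 := MonoidHom.mem_ker.1 (h hx)
  exact hf (h1.trans (map_one f).symm)

theorem locInd_int : LocInd (Multiplicative ℤ) := by
  intro H hH hne
  have h1 : ∃ x ∈ H, x ≠ 1 := by
    by_contra hcon
    push Not at hcon
    exact hne ((Subgroup.eq_bot_iff_forall H).2 hcon)
  obtain ⟨x, hx, hx1⟩ := h1
  exact surj_of_ne H.subtype ⟨⟨x, hx⟩, hx1⟩

/-- homomorphisms from the group of `L` -/
def liftG {H : Type} [Group H] (L : LOG V E) (f : V → H)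
    (h : ∀ e, f (L.ini e) * f (L.lab e) = f (L.lab e) * f (L.ter e)) : L.G →* H :=
  PresentedGroup.toGroup (f := f) (by
    rintro _ ⟨e, rfl⟩
    unfold LOG.rel
    simp only [map_mul, map_inv, FreeGroup.lift_apply_of]
    rw [h e]
    group)

theorem liftG_gen {H : Type} [Group H] (L : LOG V E) (f : V → H)
    (h : ∀ e, f (L.ini e) * f (L.lab e) = f (L.lab e) * f (L.ter e)) (v : V) :
    liftG L f h (L.gen v) = f v := PresentedGroup.toGroup.of _

theorem hom_ext {H : Type} [Group H] (L : LOG V E) {f g : L.G →* H}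
    (h : ∀ v, f (L.gen v) = g (L.gen v)) : f = g := PresentedGroup.ext h

/-- the exponent sum -/
def degG (L : LOG V E) : L.G →* Multiplicative ℤ :=
  liftG L (fun _ => Multiplicative.ofAdd 1) fun _ => rfl

theorem degG_gen (L : LOG V E) (v : V) : degG L (L.gen v) = Multiplicative.ofAdd 1 :=
  liftG_gen _ _ _ _

/-- the homomorphism of a part -/
def partHom (L : LOG V E) (p : V → Prop) : (part L p).G →* L.G :=
  liftG (part L p) (fun v => L.gen v.1) fun e => gen_rel L e.1

section classes
variable {I : Type} (L : LOG V E) (cl : V → I)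

/-- the edges which do not belong to a class -/
def Out : Type := {e : E // ¬ (cl (L.ini e) = cl (L.lab e) ∧ cl (L.ter e) = cl (L.lab e))}

/-- the group of a class -/
abbrev CG (i : I) : Type := (part L fun u => cl u = i).G

/-- the generator in the group of its class -/
def gcl (v : V) : CG L cl (cl v) := (part L fun u => cl u = cl v).gen ⟨v, rfl⟩

/-- the relations between the classes -/
def dat : Dat I (Out L cl) (CG L cl) where
  ci e := cl (L.ini e.1)
  cl e := cl (L.lab e.1)
  ct e := cl (L.ter e.1)
  x e := gcl L cl (L.ini e.1)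
  y e := gcl L cl (L.lab e.1)
  y' e := gcl L cl (L.lab e.1)
  z e := gcl L cl (L.ter e.1)

/-- the generator in the free product -/
def gof (v : V) : CoprodI (CG L cl) := of (M := CG L cl) (gcl L cl v)

theorem gof_eq (v : V) (i : I) (h : cl v = i) :
    gof L cl v = of (M := CG L cl) (i := i) ((part L fun u => cl u = i).gen ⟨v, h⟩) := by
  subst h
  rfl

open Classical in
/-- **The relative test.** -/
theorem locInd_of_classes (J : I → Prop)
    (h0 : Forest (fun e : Out L cl => cl (L.lab e.1))
      (fun e => if J (cl (L.lab e.1)) then cl (L.ter e.1) else cl (L.ini e.1)))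
    (h1 : Forest (fun e : Out L cl => cl (L.lab e.1))
      (fun e => if J (cl (L.lab e.1)) then cl (L.ini e.1) else cl (L.ter e.1)))
    (hLI : ∀ i, LocInd (part L fun u => cl u = i).G) : LocInd L.G := by
  set D := dat L cl with hD
  set N : Subgroup (CoprodI (CG L cl)) := Subgroup.normalClosure (Set.range D.rel) with hN
  have hg0 : D.gc J = fun e => if J (cl (L.lab e.1)) then cl (L.ter e.1) else cl (L.ini e.1) := by
    funext e
    rfl
  have hg1 : D.gc (fun i => ¬ J i) =
      fun e => if J (cl (L.lab e.1)) then cl (L.ini e.1) else cl (L.ter e.1) := by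
    funext e
    unfold Dat.gc
    by_cases h : J (cl (L.lab e.1))
    · rw [if_neg (by exact not_not.2 h), if_pos h]; rfl
    · rw [if_pos (by exact h), if_neg h]; rfl
  have hQ : LocInd (CoprodI (CG L cl) ⧸ N) := by
    refine locInd_rel D J ?_ ?_ (fun i => degG (part L fun u => cl u = i)) ?_ hLI
      (QuotientGroup.mk' N) (QuotientGroup.mk'_surjective N) (QuotientGroup.ker_mk' N)
    · rw [hg0]; exact h0
    · rw [hg1]; exact h1
    · intro e k
      fin_cases k
      · show 0 < (degG _ (gcl L cl (L.ini e.1))).toAdd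
        unfold gcl
        rw [degG_gen, toAdd_ofAdd]; norm_num
      · show 0 < (degG _ (gcl L cl (L.lab e.1))).toAdd
        unfold gcl
        rw [degG_gen, toAdd_ofAdd]; norm_num
      · show 0 < (degG _ (gcl L cl (L.lab e.1))).toAdd
        unfold gcl
        rw [degG_gen, toAdd_ofAdd]; norm_num
      · show 0 < (degG _ (gcl L cl (L.ter e.1))).toAdd
        unfold gcl
        rw [degG_gen, toAdd_ofAdd]; norm_num
  -- the two homomorphisms
  have hrel0 : ∀ e : Out L cl, D.rel e =
      (gof L cl (L.ini e.1) * gof L cl (L.lab e.1)) *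
        (gof L cl (L.lab e.1) * gof L cl (L.ter e.1))⁻¹ := fun e => rfl
  let φ : L.G →* CoprodI (CG L cl) ⧸ N :=
    liftG L (fun v => QuotientGroup.mk' N (gof L cl v)) (by
      intro e
      by_cases h : cl (L.ini e) = cl (L.lab e) ∧ cl (L.ter e) = cl (L.lab e)
      · have h2 := gen_rel (part L fun u => cl u = cl (L.lab e)) ⟨e, h.1, h.2, rfl⟩
        rw [gof_eq L cl (L.ini e) (cl (L.lab e)) h.1, gof_eq L cl (L.ter e) (cl (L.lab e)) h.2,
          gof_eq L cl (L.lab e) (cl (L.lab e)) rfl, ← map_mul, ← map_mul, ← map_mul, ← map_mul]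
        exact congrArg _ (congrArg _ h2)
      · have h4 : ∃ eo : Out L cl, eo.1 = e := ⟨⟨e, h⟩, rfl⟩
        obtain ⟨eo, rfl⟩ := h4
        have h2 : D.rel eo ∈ N := Subgroup.subset_normalClosure ⟨eo, rfl⟩
        have h3 : QuotientGroup.mk' N (D.rel eo) = 1 := (QuotientGroup.eq_one_iff _).2 h2
        rw [hrel0 eo, map_mul, map_inv, mul_inv_eq_one] at h3
        rw [← map_mul, ← map_mul]
        exact h3)
  let ψ0 : CoprodI (CG L cl) →* L.G :=
    Monoid.CoprodI.lift fun i => partHom L fun u => cl u = i
  have hψ0 : ∀ v, ψ0 (gof L cl v) = L.gen v := by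
    intro v
    simp only [ψ0, gof]
    rw [Monoid.CoprodI.lift_of]
    exact liftG_gen _ _ _ _
  let ψ : CoprodI (CG L cl) ⧸ N →* L.G :=
    QuotientGroup.lift N ψ0 (by
      intro x hx
      have h2 : N ≤ ψ0.ker := by
        refine Subgroup.normalClosure_le_normal ?_
        rintro _ ⟨e, rfl⟩
        show ψ0 (D.rel e) = 1
        rw [hrel0, map_mul, map_inv, mul_inv_eq_one, map_mul, map_mul, hψ0, hψ0, hψ0]
        exact gen_rel L e.1
      exact h2 hx)
  have hcomp : ψ.comp φ = MonoidHom.id L.G := by
    apply hom_ext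
    intro v
    show ψ (φ (L.gen v)) = L.gen v
    rw [show φ (L.gen v) = QuotientGroup.mk' N (gof L cl v) from liftG_gen _ _ _ _]
    exact hψ0 v
  refine locInd_of_injective hQ φ ?_
  intro x y hxy
  have := congrArg ψ hxy
  have hx := DFunLike.congr_fun hcomp x
  have hy := DFunLike.congr_fun hcomp y
  exact hx.symm.trans (this.trans hy)

end classes

end Pool.Agent.V5helper80.Rel
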