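import Pool.Agent.V5helper80.Rel.Rank

/-!
# The counting inequality from two forests

`J` is a set of indices.  A side with an index outside `J` has colour zero at its start and colour
one at its end, a side with an index in `J` the other way round.
-/

set_option autoImplicit false

namespace Pool.Agent.V5helper80.Rel

open Monoid (CoprodI)
open Monoid.CoprodI (of)

/-- every nonempty finite set of vertices spans fewer edges than it has vertices -/
def Forest {V E : Type} (p q : E → V) : Prop :=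
  ∀ (U : Finset V) (D : Finset E), U.Nonempty → (∀ e ∈ D, p e ∈ U ∧ q e ∈ U) →
    D.card + 1 ≤ U.card

variable {I E A : Type} {G : I → Type}

open Classical in
/-- the side with the index `gc` -/
noncomputable def Dat.gs (D : Dat I E G) (J : I → Prop) (e : E) : Fin 4 :=
  if J (D.cl e) then 3 else 0

open Classical in
/-- the other index at the corner with colour zero -/
noncomputable def Dat.gc (D : Dat I E G) (J : I → Prop) (e : E) : I :=
  if J (D.cl e) then D.ct e else D.ci e

open Classical in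
/-- the side with the index `cl` at the corner with colour zero -/
noncomputable def Dat.ls (D : Dat I E G) (J : I → Prop) (e : E) : Fin 4 :=
  if J (D.gc J e) then 1 else 2

variable [∀ i, Group (G i)] [MulAction (CoprodI G) A]

open Classical in
/-- the end of a side with colour zero -/
noncomputable def Dat.pt (D : Dat I E G) (J : I → Prop) (f : E × A) (k : Fin 4) : A :=
  D.pos f k (decide (J (D.sd f.1 k).1))

section
open Classical
variable {D : Dat I E G} {J : I → Prop}

theorem sd_gs (e : E) : (D.sd e (D.gs J e)).1 = D.gc J e := by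
  unfold Dat.gs Dat.gc
  split_ifs <;> rfl

theorem sd_ls (e : E) : (D.sd e (D.ls J e)).1 = D.cl e := by
  unfold Dat.ls
  split_ifs <;> rfl

theorem pt_ls (f : E × A) (hf : D.Closed f) : D.pt J f (D.ls J f.1) = D.pt J f (D.gs J f.1) := by
  unfold Dat.Closed at hf
  have ha := D.pos_corner_a f
  have hb := D.pos_corner_b f
  have hc := D.pos_corner_c f
  have e0 : (D.sd f.1 0).1 = D.ci f.1 := rfl
  have e1 : (D.sd f.1 1).1 = D.cl f.1 := rfl
  have e2 : (D.sd f.1 2).1 = D.cl f.1 := rfl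
  have e3 : (D.sd f.1 3).1 = D.ct f.1 := rfl
  unfold Dat.ls Dat.gs Dat.gc Dat.pt
  by_cases h1 : J (D.cl f.1)
  · by_cases h2 : J (D.ct f.1)
    · simp [h1, h2, e1, e3, hf]
    · simp [h1, h2, e2, e3, hc]
  · by_cases h2 : J (D.ci f.1)
    · simp [h1, h2, e0, e1, hb]
    · simp [h1, h2, e0, e2, ha]

theorem cor_inj {f g : E × A} (h1 : f.1 = g.1)
    (h : D.pt J f (D.gs J f.1) = D.pt J g (D.gs J g.1)) : f = g := by
  unfold Dat.pt at h
  rw [← h1] at h
  exact D.pos_inj h1 h

/-- the edges with a pass of colour zero -/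
noncomputable def S0 (D : Dat I E G) (J : I → Prop) (S : Finset (A × I)) (F : Finset (E × A)) :
    Finset (A × I) :=
  S.filter fun s => ∃ f ∈ F, ∃ k, (D.pt J f k, (D.sd f.1 k).1) = s

/-- the count at one vertex -/
theorem local_count {S : Finset (A × I)} {F : Finset (E × A)} (hJ : Forest D.cl (D.gc J))
    (hC : D.Cplx S F) (b : A) (hb : ((S0 D J S F).filter fun s => s.1 = b).Nonempty) :
    (F.filter fun f => D.pt J f (D.gs J f.1) = b).card + 1 ≤
      ((S0 D J S F).filter fun s => s.1 = b).card := by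
  have hmem : ∀ f ∈ F, ∀ k, (D.pt J f k, (D.sd f.1 k).1) ∈ S0 D J S F := fun f hf k =>
    Finset.mem_filter.2 ⟨(hC f hf).2 (k, _), f, hf, k, rfl⟩
  have h1 := hJ (((S0 D J S F).filter fun s => s.1 = b).image Prod.snd)
    ((F.filter fun f => D.pt J f (D.gs J f.1) = b).image Prod.fst)
    (hb.image _) (by
      intro e he
      obtain ⟨f, hf, rfl⟩ := Finset.mem_image.1 he
      obtain ⟨hfF, hfy⟩ := Finset.mem_filter.1 hf
      constructor
      · refine Finset.mem_image.2 ⟨_, Finset.mem_filter.2 ⟨hmem f hfF (D.ls J f.1), ?_⟩,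
          sd_ls f.1⟩
        simp only
        rw [pt_ls f (hC f hfF).1, hfy]
      · exact Finset.mem_image.2 ⟨_, Finset.mem_filter.2 ⟨hmem f hfF (D.gs J f.1), hfy⟩,
          sd_gs f.1⟩)
  rw [Finset.card_image_of_injOn, Finset.card_image_of_injOn] at h1
  · exact h1
  · intro x hx x' hx' h
    have hx1 := (Finset.mem_filter.1 hx).2
    have hx2 := (Finset.mem_filter.1 hx').2
    exact Prod.ext (hx1.trans hx2.symm) h
  · intro x hx x' hx' h
    have hx1 := (Finset.mem_filter.1 hx).2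
    have hx2 := (Finset.mem_filter.1 hx').2
    exact cor_inj h (hx1.trans hx2.symm)

/-- the global count -/
theorem global_count {S : Finset (A × I)} {F : Finset (E × A)} (hJ : Forest D.cl (D.gc J))
    (hC : D.Cplx S F) : F.card + ((S0 D J S F).image Prod.fst).card ≤ (S0 D J S F).card := by
  have h1 : (S0 D J S F).card = ∑ b ∈ (S0 D J S F).image Prod.fst,
      ((S0 D J S F).filter fun s => s.1 = b).card :=
    Finset.card_eq_sum_card_fiberwise fun x hx => Finset.mem_image_of_mem _ hx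
  have h2 : F.card = ∑ b ∈ (S0 D J S F).image Prod.fst,
      (F.filter fun f => D.pt J f (D.gs J f.1) = b).card :=
    Finset.card_eq_sum_card_fiberwise fun f hf => by
      refine Finset.mem_image.2 ⟨(D.pt J f (D.gs J f.1), (D.sd f.1 (D.gs J f.1)).1),
        Finset.mem_filter.2 ⟨(hC f hf).2 (_, _), f, hf, _, rfl⟩, rfl⟩
  rw [h1, h2, Finset.card_eq_sum_ones, ← Finset.sum_add_distrib]
  refine Finset.sum_le_sum fun y hy => local_count hJ hC y ?_
  obtain ⟨x, hx, hxy⟩ := Finset.mem_image.1 hy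
  exact ⟨x, Finset.mem_filter.2 ⟨hx, hxy⟩⟩

/-- at a vertex without colour zero all corners have colour one -/
theorem pass_corner (b : A) (f : E × A) (hcl : D.Closed f) (hb : ∀ k, D.pt J f k ≠ b)
    (k : Fin 4) (β : Bool) (hk : D.pos f k β = b) :
    D.pt (fun i => ¬ J i) f (D.gs (fun i => ¬ J i) f.1) = b ∧
      ((k, β) = (D.gs (fun i => ¬ J i) f.1, !decide (J (D.sd f.1 (D.gs (fun i => ¬ J i) f.1)).1)) ∨
        (k, β) = (D.ls (fun i => ¬ J i) f.1,
          !decide (J (D.sd f.1 (D.ls (fun i => ¬ J i) f.1)).1))) := by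
  unfold Dat.Closed at hcl
  have ha := D.pos_corner_a f
  have hb' := D.pos_corner_b f
  have hc := D.pos_corner_c f
  have e0 : (D.sd f.1 0).1 = D.ci f.1 := rfl
  have e1 : (D.sd f.1 1).1 = D.cl f.1 := rfl
  have e2 : (D.sd f.1 2).1 = D.cl f.1 := rfl
  have e3 : (D.sd f.1 3).1 = D.ct f.1 := rfl
  have h0 := hb 0
  have h1 := hb 1
  have h2 := hb 2
  have h3 := hb 3
  unfold Dat.pt at h0 h1 h2 h3
  rw [e0] at h0
  rw [e1] at h1
  rw [e2] at h2
  rw [e3] at h3
  unfold Dat.ls Dat.gs Dat.gc Dat.pt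
  by_cases hl : J (D.cl f.1) <;> by_cases hi : J (D.ci f.1) <;> by_cases ht : J (D.ct f.1) <;>
    fin_cases k <;> cases β <;> simp_all

/-- every vertex has an edge with a pass of colour zero -/
theorem colour_zero {S : Finset (A × I)} {F : Finset (E × A)}
    (hJ : Forest D.cl (D.gc (fun i => ¬ J i)))
    (hC : D.Cplx S F) (h2 : ∀ s ∈ S, 2 ≤ (D.passes F s).card) :
    S.image Prod.fst ⊆ (S0 D J S F).image Prod.fst := by
  intro b hb
  by_contra hno
  have hno' : ∀ f ∈ F, ∀ k, D.pt J f k ≠ b := by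
    intro f hf k h
    refine hno (Finset.mem_image.2 ⟨(D.pt J f k, (D.sd f.1 k).1),
      Finset.mem_filter.2 ⟨(hC f hf).2 (k, _), f, hf, k, rfl⟩, h⟩)
  set S' := S.filter fun s => s.1 = b with hS'
  set F' := F.filter fun f => D.pt (fun i => ¬ J i) f (D.gs (fun i => ¬ J i) f.1) = b with hF'
  let g1 : E × A → (E × A) × (Fin 4 × Bool) := fun f =>
    (f, (D.gs (fun i => ¬ J i) f.1, !decide (J (D.sd f.1 (D.gs (fun i => ¬ J i) f.1)).1)))
  let g2 : E × A → (E × A) × (Fin 4 × Bool) := fun f =>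
    (f, (D.ls (fun i => ¬ J i) f.1, !decide (J (D.sd f.1 (D.ls (fun i => ¬ J i) f.1)).1)))
  have hpass : ∀ f ∈ F, ∀ k β, D.pos f k β = b →
      (f, (k, β)) ∈ F'.image g1 ∪ F'.image g2 := by
    intro f hf k β h
    obtain ⟨h5, h6⟩ := pass_corner b f (hC f hf).1 (hno' f hf) k β h
    have h7 : f ∈ F' := Finset.mem_filter.2 ⟨hf, h5⟩
    rcases h6 with h6 | h6
    · exact Finset.mem_union_left _ (Finset.mem_image.2 ⟨f, h7, by rw [h6]⟩)
    · exact Finset.mem_union_right _ (Finset.mem_image.2 ⟨f, h7, by rw [h6]⟩)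
  have h3 : 2 * S'.card ≤ (S'.biUnion fun x => D.passes F x).card := by
    rw [Finset.card_biUnion]
    · calc 2 * S'.card = ∑ _x ∈ S', 2 := by rw [Finset.sum_const, smul_eq_mul, mul_comm]
        _ ≤ _ := Finset.sum_le_sum fun x hx => h2 x (Finset.mem_filter.1 hx).1
    · intro x _ x' _ hxx
      refine Finset.disjoint_left.2 fun q hq hq' => hxx ?_
      exact (Dat.mem_passes.1 hq).2.symm.trans (Dat.mem_passes.1 hq').2
  have h4 : (S'.biUnion fun x => D.passes F x) ⊆ F'.image g1 ∪ F'.image g2 := by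
    rintro ⟨f, k, β⟩ hq
    obtain ⟨x, hx, hq⟩ := Finset.mem_biUnion.1 hq
    obtain ⟨hf, hk⟩ := Dat.mem_passes.1 hq
    have hxy := (Finset.mem_filter.1 hx).2
    exact hpass f hf k β (by rw [← hxy, ← hk]; rfl)
  have h5 := Finset.card_le_card h4
  have h6 := Finset.card_union_le (F'.image g1) (F'.image g2)
  have h7 : (F'.image g1).card ≤ F'.card := Finset.card_image_le
  have h8 : (F'.image g2).card ≤ F'.card := Finset.card_image_le
  obtain ⟨s, hs, hsb⟩ := Finset.mem_image.1 hb
  have hS'1 : 1 ≤ S'.card := Finset.card_pos.2 ⟨s, Finset.mem_filter.2 ⟨hs, hsb⟩⟩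
  -- the count for colour one
  have hF'1 : F'.Nonempty := by
    rw [← Finset.card_pos]
    omega
  have hlc : F'.card + 1 ≤ _ := local_count (S := S) (F := F) hJ hC b (by
    obtain ⟨f, hf⟩ := hF'1
    obtain ⟨hfF, hfb⟩ := Finset.mem_filter.1 hf
    exact ⟨_, Finset.mem_filter.2 ⟨Finset.mem_filter.2 ⟨(hC f hfF).2 (_, _), f, hfF,
      D.gs (fun i => ¬ J i) f.1, rfl⟩, hfb⟩⟩)
  have h9 : ((S0 D (fun i => ¬ J i) S F).filter fun s => s.1 = b).card ≤ S'.card := by
    refine Finset.card_le_card fun s hs => ?_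
    obtain ⟨h1, h2⟩ := Finset.mem_filter.1 hs
    exact Finset.mem_filter.2 ⟨(Finset.mem_filter.1 h1).1, h2⟩
  omega

/-- in a dead orbit some edge has no pass of colour zero -/
theorem dead_orbit {S : Finset (A × I)} {F : Finset (E × A)}
    (ht : ∀ i, G i →* Multiplicative ℤ) (hpos : ∀ e k, 0 < (ht _ (D.sd e k).2).toAdd)
    (hC : D.Cplx S F) (κ : Quotient (clu A G)) (hκ : κ ∈ S.image (orb G)) (hdead : ¬ Live κ) :
    ∃ s ∈ S \ S0 D J S F, orb G s = κ := by
  obtain ⟨⟨a, i⟩, hs0, hs0κ⟩ := Finset.mem_image.1 hκ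
  have hz : ∀ (b : A) (g : G i), orb G (b, i) = κ → mv (of g) b = b → (ht i g).toAdd = 0 := by
    intro b g hb hg
    by_contra hne
    refine hdead ⟨fun j c h => if orb G (c, j) = κ then ((ht j h).toAdd : ℚ) else 0, ?_, ?_,
      i, b, g, hb, hg, ?_⟩
    · intro j c h h'
      simp only [orb_mv]
      split_ifs
      · rw [map_mul, toAdd_mul]; push_cast; ring
      · ring
    · intro j c h hne'
      simp only [if_neg hne']
    · simp only [if_pos hb]
      exact_mod_cast hne
  let Sκ := S.filter fun s => orb G s = κ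
  have hidx : ∀ s ∈ Sκ, ∃ g : G i, s = (mv (of g) a, i) := by
    rintro ⟨b, j⟩ hs
    have h1 := (Finset.mem_filter.1 hs).2
    obtain ⟨g, hg⟩ := orb_eq.1 (hs0κ.trans h1.symm)
    exact ⟨g, hg⟩
  choose! gg hgg using hidx
  have hne : Sκ.Nonempty := ⟨(a, i), Finset.mem_filter.2 ⟨hs0, hs0κ⟩⟩
  have hup : ∀ (b : A) (g : G i), (b, i) ∈ Sκ → (mv (of g) b, i) ∈ Sκ →
      (ht i (gg (mv (of g) b, i))).toAdd = (ht i (gg (b, i))).toAdd + (ht i g).toAdd := by
    intro b g hb hgb
    have h1 := hgg _ hb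
    have h2 := hgg _ hgb
    have h3 : b = mv (of (gg (b, i))) a := congrArg Prod.fst h1
    have h4 : mv (of g) b = mv (of (gg (mv (of g) b, i))) a := congrArg Prod.fst h2
    have h5 : mv (of (gg (b, i) * g * (gg (mv (of g) b, i))⁻¹)) a = a := by
      rw [map_mul, map_mul, mv_mul, mv_mul, ← h3, map_inv]
      generalize gg (mv (of g) b, i) = k at h4 ⊢
      rw [h4, mv_inv]
    have h6 := hz a _ hs0κ h5
    simp only [MonoidHom.map_mul, MonoidHom.map_inv, toAdd_mul, toAdd_inv] at h6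
    linarith
  by_cases hJi : J i
  · -- the lowest edge
    obtain ⟨⟨b, j⟩, hb, hmin⟩ := Sκ.exists_min_image (fun s => (ht i (gg s)).toAdd) hne
    have hbκ := (Finset.mem_filter.1 hb).2
    have hj : j = i := congrArg Prod.snd (hgg _ hb)
    subst hj
    refine ⟨(b, j), Finset.mem_sdiff.2 ⟨(Finset.mem_filter.1 hb).1, fun h => ?_⟩, hbκ⟩
    obtain ⟨_, f, hf, k, hk⟩ := Finset.mem_filter.1 h
    have hk2 : (D.sd f.1 k).1 = j := congrArg Prod.snd hk
    have hk1 : D.pt J f k = b := congrArg Prod.fst hk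
    unfold Dat.pt at hk1
    rw [hk2, decide_eq_true hJi, D.pos_true] at hk1
    have h7 : (D.pos f k false, (D.sd f.1 k).1) ∈ S := (hC f hf).2 (k, false)
    have hp := hpos f.1 k
    generalize D.sd f.1 k = x at hk2 hk1 h7 hp
    obtain ⟨j', x⟩ := x
    simp only at hk2 hk1 h7 hp
    subst hk2
    subst hk1
    have h8 : (D.pos f k false, j') ∈ Sκ := Finset.mem_filter.2 ⟨h7, by
      rw [← hbκ, orb_mv]⟩
    have h9 := hup _ x h8 hb
    have h10 := hmin _ h8
    omega
  · -- the highest edge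
    obtain ⟨⟨b, j⟩, hb, hmax⟩ := Sκ.exists_max_image (fun s => (ht i (gg s)).toAdd) hne
    have hbκ := (Finset.mem_filter.1 hb).2
    have hj : j = i := congrArg Prod.snd (hgg _ hb)
    subst hj
    refine ⟨(b, j), Finset.mem_sdiff.2 ⟨(Finset.mem_filter.1 hb).1, fun h => ?_⟩, hbκ⟩
    obtain ⟨_, f, hf, k, hk⟩ := Finset.mem_filter.1 h
    have hk2 : (D.sd f.1 k).1 = j := congrArg Prod.snd hk
    have hk1 : D.pt J f k = b := congrArg Prod.fst hk
    unfold Dat.pt at hk1
    rw [hk2, decide_eq_false hJi] at hk1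
    have h7 : (D.pos f k true, (D.sd f.1 k).1) ∈ S := (hC f hf).2 (k, true)
    rw [D.pos_true] at h7
    have hp := hpos f.1 k
    generalize D.sd f.1 k = x at hk2 h7 hp
    obtain ⟨j', x⟩ := x
    simp only at hk2 h7 hp
    subst hk2
    subst hk1
    have h8 : (mv (of x) (D.pos f k false), j') ∈ Sκ := Finset.mem_filter.2 ⟨h7, by
      rw [orb_mv, ← hbκ]⟩
    have h9 := hup _ x hb h8
    have h10 := hmax _ h8
    omega

/-- the counting inequality -/
theorem ineq {S : Finset (A × I)} {F : Finset (E × A)}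
    (h0 : Forest D.cl (D.gc J)) (h1 : Forest D.cl (D.gc (fun i => ¬ J i)))
    (ht : ∀ i, G i →* Multiplicative ℤ) (hpos : ∀ e k, 0 < (ht _ (D.sd e k).2).toAdd)
    (hC : D.Cplx S F) (h2 : ∀ s ∈ S, 2 ≤ (D.passes F s).card) :
    F.card + (S.image Prod.fst).card + ((S.image (orb G)).filter fun κ => ¬ Live κ).card ≤
      S.card := by
  have h3 := global_count h0 hC
  have h4 := Finset.card_le_card (colour_zero (J := J) h1 hC h2)
  have h5 : ((S.image (orb G)).filter fun κ => ¬ Live κ).card ≤ (S \ S0 D J S F).card := by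
    have h6 : ((S.image (orb G)).filter fun κ => ¬ Live κ) ⊆ (S \ S0 D J S F).image (orb G) := by
      intro κ hκ
      obtain ⟨h7, h8⟩ := Finset.mem_filter.1 hκ
      obtain ⟨s, hs, hs'⟩ := dead_orbit (J := J) ht hpos hC κ h7 h8
      exact Finset.mem_image.2 ⟨s, hs, hs'⟩
    exact (Finset.card_le_card h6).trans Finset.card_image_le
  have h6 : S0 D J S F ⊆ S := Finset.filter_subset _ _
  have h7 := Finset.card_sdiff_add_card_eq_card h6
  omega

end

end Pool.Agent.V5helper80.Rel
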