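import Mathlib

/-!
# Relations of length four over a free product

`G i` (`i : I`) are groups, `CoprodI G` their free product.  A relation `e` reads
`x e * y e = y' e * z e` with `x e ∈ G (ci e)`, `y e, y' e ∈ G (cl e)`, `z e ∈ G (ct e)`.

For a set `A` with an action of the free product the pair `(a, i) : A × I` is the edge which joins the
point `a` with its `G i`-orbit; the pair `(e, a)` is a 2-cell based at `a`.  Every side of the 2-cell
runs from a point through an orbit to another point, so it passes two of these edges.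
-/

set_option autoImplicit false

namespace Pool.Agent.V5helper80.Rel

open Monoid (CoprodI)
open Monoid.CoprodI (of)

/-- relations `x e * y e = y' e * z e` -/
structure Dat (I E : Type) (G : I → Type) where
  ci : E → I
  cl : E → I
  ct : E → I
  x : ∀ e, G (ci e)
  y : ∀ e, G (cl e)
  y' : ∀ e, G (cl e)
  z : ∀ e, G (ct e)

variable {I E A : Type} {G : I → Type} [∀ i, Group (G i)]

/-- the four sides -/
def Dat.sd (D : Dat I E G) (e : E) : Fin 4 → Σ i, G i :=
  ![⟨D.ci e, D.x e⟩, ⟨D.cl e, D.y e⟩, ⟨D.cl e, D.y' e⟩, ⟨D.ct e, D.z e⟩]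

/-- the start of a side -/
def Dat.st (D : Dat I E G) (e : E) : Fin 4 → CoprodI G :=
  ![1, of (D.x e), 1, of (D.y' e)]

/-- the end of a side -/
def Dat.en (D : Dat I E G) (e : E) (k : Fin 4) : CoprodI G := D.st e k * of (D.sd e k).2

/-- the relator -/
def Dat.rel (D : Dat I E G) (e : E) : CoprodI G := D.en e 1 * (D.en e 3)⁻¹

variable [MulAction (CoprodI G) A]

/-- the move from `a` along `g` -/
def mv (g : CoprodI G) (a : A) : A := g⁻¹ • a

theorem mv_one (a : A) : mv (1 : CoprodI G) a = a := by simp [mv]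

theorem mv_mul (g h : CoprodI G) (a : A) : mv (g * h) a = mv h (mv g a) := by
  simp [mv, mul_smul]

theorem mv_inj (g : CoprodI G) {a b : A} (h : mv g a = mv g b) : a = b := by
  simpa [mv] using h

theorem mv_inv (g : CoprodI G) (a : A) : mv g⁻¹ (mv g a) = a := by simp [mv]

theorem mv_inv' (g : CoprodI G) (a : A) : mv g (mv g⁻¹ a) = a := by simp [mv]

/-- the ends of the sides of a 2-cell -/
def Dat.pos (D : Dat I E G) (f : E × A) (k : Fin 4) (β : Bool) : A :=
  if β then mv (D.en f.1 k) f.2 else mv (D.st f.1 k) f.2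

theorem Dat.pos_true (D : Dat I E G) (f : E × A) (k : Fin 4) :
    D.pos f k true = mv (of (D.sd f.1 k).2) (D.pos f k false) := by
  unfold Dat.pos Dat.en
  simp [mv_mul]

theorem Dat.pos_corner_a (D : Dat I E G) (f : E × A) : D.pos f 0 false = D.pos f 2 false := rfl

theorem Dat.pos_corner_b (D : Dat I E G) (f : E × A) : D.pos f 0 true = D.pos f 1 false := by
  unfold Dat.pos Dat.en Dat.st Dat.sd
  simp
  rfl

theorem Dat.pos_corner_c (D : Dat I E G) (f : E × A) : D.pos f 2 true = D.pos f 3 false := by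
  unfold Dat.pos Dat.en Dat.st Dat.sd
  simp
  rfl

theorem Dat.pos_inj (D : Dat I E G) {f g : E × A} (h1 : f.1 = g.1) {k : Fin 4} {β : Bool}
    (h : D.pos f k β = D.pos g k β) : f = g := by
  obtain ⟨e, a⟩ := f
  obtain ⟨e', b⟩ := g
  simp only at h1
  subst h1
  unfold Dat.pos at h
  simp only at h
  split_ifs at h
  · rw [mv_inj _ h]
  · rw [mv_inj _ h]

/-- the 2-cell closes up -/
def Dat.Closed (D : Dat I E G) (f : E × A) : Prop := D.pos f 1 true = D.pos f 3 true

/-- the edges passed by a 2-cell -/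
def Dat.ts (D : Dat I E G) (f : E × A) (q : Fin 4 × Bool) : A × I :=
  (D.pos f q.1 q.2, (D.sd f.1 q.1).1)

/-- a finite complex with edges `S` and 2-cells `F` -/
def Dat.Cplx (D : Dat I E G) (S : Finset (A × I)) (F : Finset (E × A)) : Prop :=
  ∀ f ∈ F, D.Closed f ∧ ∀ q, D.ts f q ∈ S

/-- cocycles of the actions of the groups `G i` -/
def IsCoc {R : Type} [AddGroup R] (c : ∀ i, A → G i → R) : Prop :=
  ∀ (i : I) (a : A) (g h : G i), c i a (g * h) = c i a g + c i (mv (of g) a) h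

/-- the cell equation -/
def Dat.Eqn (D : Dat I E G) (c : ∀ i, A → G i → ℚ) (f : E × A) : Prop :=
  c _ (D.pos f 0 false) (D.sd f.1 0).2 + c _ (D.pos f 1 false) (D.sd f.1 1).2 =
    c _ (D.pos f 2 false) (D.sd f.1 2).2 + c _ (D.pos f 3 false) (D.sd f.1 3).2

/-- no cohomology in degree one -/
def Dat.HZ (D : Dat I E G) (S : Finset (A × I)) (F : Finset (E × A)) : Prop :=
  ∀ c : ∀ i, A → G i → ℚ, IsCoc c → (∀ f ∈ F, D.Eqn c f) →
    ∃ δ : A → ℚ, ∀ (i : I) (a : A) (g : G i), (a, i) ∈ S → (mv (of g) a, i) ∈ S →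
      c i a g = δ (mv (of g) a) - δ a

/-- trivial image in the group `Q` -/
def Triv {Q : Type} [Group Q] (π : CoprodI G →* Q) (S : Finset (A × I)) : Prop :=
  ∃ p : A → Q, ∀ (i : I) (a : A) (g : G i), (a, i) ∈ S → (mv (of g) a, i) ∈ S →
    p (mv (of g) a) = p a * π (of g)

open Classical in
/-- the passes over an edge -/
noncomputable def Dat.passes (D : Dat I E G) (F : Finset (E × A)) (s : A × I) :
    Finset ((E × A) × (Fin 4 × Bool)) :=
  (F ×ˢ Finset.univ).filter fun q => D.ts q.1 q.2 = s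

theorem Dat.mem_passes {D : Dat I E G} {F : Finset (E × A)} {s : A × I}
    {q : (E × A) × (Fin 4 × Bool)} : q ∈ D.passes F s ↔ q.1 ∈ F ∧ D.ts q.1 q.2 = s := by
  simp [Dat.passes]

variable (A G) in
/-- two pairs in the same orbit -/
def clu : Setoid (A × I) where
  r s t := ∃ g : G s.2, t = (mv (of g) s.1, s.2)
  iseqv := by
    refine ⟨fun s => ⟨1, ?_⟩, ?_, ?_⟩
    · rw [map_one, mv_one]
    · rintro ⟨a, i⟩ ⟨b, j⟩ ⟨g, h⟩
      obtain ⟨rfl, rfl⟩ := Prod.mk.inj h
      refine ⟨g⁻¹, ?_⟩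
      rw [map_inv, mv_inv]
    · rintro ⟨a, i⟩ ⟨b, j⟩ ⟨c, k⟩ ⟨g, h⟩ ⟨g', h'⟩
      obtain ⟨rfl, rfl⟩ := Prod.mk.inj h
      obtain ⟨rfl, rfl⟩ := Prod.mk.inj h'
      exact ⟨g * g', by rw [map_mul, mv_mul]⟩

/-- the orbit of a pair -/
def orb (G : I → Type) [∀ i, Group (G i)] [MulAction (CoprodI G) A] (s : A × I) :
    Quotient (clu A G) := Quotient.mk _ s

theorem orb_eq {a b : A} {i j : I} : orb G (a, i) = orb G (b, j) ↔
    ∃ g : G i, (b, j) = (mv (of g) a, i) := Quotient.eq

theorem orb_mv (a : A) (i : I) (g : G i) : orb G (mv (of g) a, i) = orb G (a, i) :=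
  (orb_eq.2 ⟨g, rfl⟩).symm

/-- the orbit has a nontrivial homomorphism of the stabiliser to the rationals -/
def Live (κ : Quotient (clu A G)) : Prop :=
  ∃ c : ∀ i, A → G i → ℚ, IsCoc c ∧ (∀ i a g, orb G (a, i) ≠ κ → c i a g = 0) ∧
    ∃ (i : I) (a : A) (g : G i), orb G (a, i) = κ ∧ mv (of g) a = a ∧ c i a g ≠ 0

end Pool.Agent.V5helper80.Rel
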