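import Pool.Agent.V5helper80.Rel.Steps
import Pool.Agent.V5helper80.NPI.Li

/-!
# Integration of cocycles over words of the free product
-/

set_option autoImplicit false

namespace Pool.Agent.V5helper80.Rel

open Monoid (CoprodI)
open Monoid.CoprodI (of)
open Pool.Agent.TH625.LOG

variable {I A : Type} {G : I → Type} [∀ i, Group (G i)] [MulAction (CoprodI G) A]

section integral
variable {R : Type} [AddGroup R]

theorem coc_one {c : ∀ i, A → G i → R} (hc : IsCoc c) (i : I) (a : A) : c i a 1 = 0 := by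
  have h := hc i a 1 1
  rw [mul_one, map_one, mv_one] at h
  exact (left_eq_add.1 h)

/-- the action of one factor -/
def Ti (c : ∀ i, A → G i → R) (hc : IsCoc c) (i : I) : G i →* Equiv.Perm (A × R) where
  toFun g :=
    { toFun := fun p => (mv (of g⁻¹) p.1, p.2 + c i p.1 g⁻¹)
      invFun := fun p => (mv (of g) p.1, p.2 + c i p.1 g)
      left_inv := by
        intro p
        refine Prod.ext ?_ ?_
        · show mv (of g) (mv (of g⁻¹) p.1) = p.1
          rw [map_inv, mv_inv']
        · show p.2 + c i p.1 g⁻¹ + c i (mv (of g⁻¹) p.1) g = p.2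
          rw [add_assoc, ← hc, inv_mul_cancel, coc_one hc, add_zero]
      right_inv := by
        intro p
        refine Prod.ext ?_ ?_
        · show mv (of g⁻¹) (mv (of g) p.1) = p.1
          rw [map_inv, mv_inv]
        · show p.2 + c i p.1 g + c i (mv (of g) p.1) g⁻¹ = p.2
          rw [add_assoc, ← hc, mul_inv_cancel, coc_one hc, add_zero] }
  map_one' := by
    ext p
    · show mv (of (1 : G i)⁻¹) p.1 = p.1
      rw [inv_one, map_one, mv_one]
    · show p.2 + c i p.1 (1 : G i)⁻¹ = p.2
      rw [inv_one, coc_one hc, add_zero]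
  map_mul' := by
    intro g h
    ext p
    · show mv (of (g * h)⁻¹) p.1 = mv (of g⁻¹) (mv (of h⁻¹) p.1)
      rw [mul_inv_rev, map_mul, mv_mul]
    · show p.2 + c i p.1 (g * h)⁻¹ = p.2 + c i p.1 h⁻¹ + c i (mv (of h⁻¹) p.1) g⁻¹
      rw [mul_inv_rev, hc, add_assoc]

/-- the action of the free product -/
def Tc (c : ∀ i, A → G i → R) (hc : IsCoc c) : CoprodI G →* Equiv.Perm (A × R) :=
  Monoid.CoprodI.lift (Ti c hc)

/-- the integral of `c` along `w` from `a` -/
def J (c : ∀ i, A → G i → R) (hc : IsCoc c) (w : CoprodI G) (a : A) : R :=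
  ((Tc c hc w)⁻¹ (a, 0)).2

theorem J_spec (c : ∀ i, A → G i → R) (hc : IsCoc c) (w : CoprodI G) :
    ∃ j : A → R, ∀ a q, (Tc c hc w)⁻¹ (a, q) = (mv w a, q + j a) := by
  induction w using Monoid.CoprodI.induction_on with
  | one =>
    refine ⟨0, fun a q => ?_⟩
    rw [map_one, inv_one, mv_one]
    simp
  | of i g =>
    refine ⟨fun a => c i a g, fun a q => ?_⟩
    have h : Tc c hc (of g) = Ti c hc i g := Monoid.CoprodI.lift_of _ _
    rw [h]
    rfl
  | mul x y hx hy =>
    obtain ⟨j, hj⟩ := hx
    obtain ⟨k, hk⟩ := hy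
    refine ⟨fun a => j a + k (mv x a), fun a q => ?_⟩
    rw [map_mul, mul_inv_rev, Equiv.Perm.mul_apply, hj, hk, mv_mul, add_assoc]

theorem J_apply (c : ∀ i, A → G i → R) (hc : IsCoc c) (w : CoprodI G) (a : A) (q : R) :
    (Tc c hc w)⁻¹ (a, q) = (mv w a, q + J c hc w a) := by
  obtain ⟨j, hj⟩ := J_spec c hc w
  have : J c hc w a = j a := by
    show ((Tc c hc w)⁻¹ (a, 0)).2 = _
    rw [hj]; simp
  rw [this, hj]

theorem J_one (c : ∀ i, A → G i → R) (hc : IsCoc c) (a : A) : J c hc 1 a = 0 := by
  unfold J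
  rw [map_one, inv_one]
  rfl

theorem J_mul (c : ∀ i, A → G i → R) (hc : IsCoc c) (x y : CoprodI G) (a : A) :
    J c hc (x * y) a = J c hc x a + J c hc y (mv x a) := by
  have h : J c hc (x * y) a = ((Tc c hc (x * y))⁻¹ (a, 0)).2 := rfl
  rw [h, map_mul, mul_inv_rev, Equiv.Perm.mul_apply, J_apply, J_apply, zero_add]

theorem J_of (c : ∀ i, A → G i → R) (hc : IsCoc c) (i : I) (g : G i) (a : A) :
    J c hc (of g) a = c i a g := by
  have h : Tc c hc (of g) = Ti c hc i g := Monoid.CoprodI.lift_of _ _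
  unfold J
  rw [h]
  show 0 + c i a g = c i a g
  rw [zero_add]

theorem J_inv (c : ∀ i, A → G i → R) (hc : IsCoc c) (x : CoprodI G) (a : A) :
    J c hc x⁻¹ a = - J c hc x (mv x⁻¹ a) := by
  have h := J_mul c hc x⁻¹ x a
  rw [inv_mul_cancel, J_one] at h
  exact eq_neg_of_add_eq_zero_left h.symm

end integral

section stab
open Classical

/-- the stabiliser in one factor -/
def Stb (i : I) (a : A) : Subgroup (G i) where
  carrier := {g | mv (of g) a = a}
  one_mem' := by
    show mv (of (1 : G i)) a = a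
    rw [map_one, mv_one]
  mul_mem' := by
    intro g h hg hh
    show mv (of (g * h)) a = a
    rw [map_mul, mv_mul, show mv (of g) a = a from hg, show mv (of h) a = a from hh]
  inv_mem' := by
    intro g hg
    show mv (of g⁻¹) a = a
    have h1 : mv (of g) a = a := hg
    conv_lhs => rw [← h1]
    rw [map_inv, mv_inv]

/-- the stabiliser in the free product -/
def StbF (G : I → Type) [∀ i, Group (G i)] [MulAction (CoprodI G) A] (a : A) :
    Subgroup (CoprodI G) where
  carrier := {g | mv g a = a}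
  one_mem' := mv_one a
  mul_mem' := by
    intro g h hg hh
    show mv (g * h) a = a
    rw [mv_mul, show mv g a = a from hg, show mv h a = a from hh]
  inv_mem' := by
    intro g hg
    show mv g⁻¹ a = a
    have h1 : mv g a = a := hg
    conv_lhs => rw [← h1]
    rw [mv_inv]

/-- the transport to the factor `i` -/
noncomputable def toI (i : I) (j : I) (g : G j) : G i := if h : j = i then h ▸ g else 1

theorem toI_self (i : I) (g : G i) : toI i i g = g := by
  unfold toI
  rw [dif_pos rfl]

/-- an element that moves `a` to the given point of its orbit -/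
noncomputable def gg (i : I) (a : A) (s : A × I) : G i :=
  if h : ∃ g : G i, s = (mv (of g) a, i) then h.choose else 1

theorem gg_spec (i : I) (a : A) (s : A × I) (h : orb G s = orb G (a, i)) :
    s = (mv (of (gg (G := G) i a s)) a, i) := by
  obtain ⟨b, j⟩ := s
  have h1 : ∃ g : G i, (b, j) = (mv (of g) a, i) := orb_eq.1 h.symm
  unfold gg
  rw [dif_pos h1]
  exact h1.choose_spec

/-- the value of the cocycle of the retraction -/
noncomputable def rv (i : I) (a : A) (j : I) (b : A) (g : G j) : G i :=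
  gg (G := G) i a (b, j) * toI i j g * (gg (G := G) i a (mv (of g) b, j))⁻¹

theorem rv_mem (i : I) (a : A) (j : I) (b : A) (g : G j) (h : orb G (b, j) = orb G (a, i)) :
    rv i a j b g ∈ Stb i a := by
  have h1 := gg_spec i a (b, j) h
  have h2 := gg_spec i a (mv (of g) b, j) (by rw [orb_mv]; exact h)
  have hj : j = i := congrArg Prod.snd h1
  subst hj
  have h3 := congrArg Prod.fst h1
  have h4 := congrArg Prod.fst h2
  simp only at h3 h4
  show mv (of (rv j a j b g)) a = a
  unfold rv
  rw [toI_self, map_mul, map_mul, mv_mul, mv_mul, ← h3, map_inv]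
  generalize gg (G := G) j a (mv (of g) b, j) = k at h4 ⊢
  rw [h4, mv_inv]

theorem rv_mul (i : I) (a : A) (j : I) (b : A) (g h : G j) (hb : orb G (b, j) = orb G (a, i)) :
    rv i a j b (g * h) = rv i a j b g * rv i a j (mv (of g) b) h := by
  have hj : j = i := congrArg Prod.snd (gg_spec i a (b, j) hb)
  subst hj
  unfold rv
  rw [toI_self, toI_self, toI_self, map_mul, mv_mul]
  group

/-- the cocycle of the retraction -/
noncomputable def rc (i : I) (a : A) (j : I) (b : A) (g : G j) : Additive (Stb (G := G) i a) :=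
  if h : orb G (b, j) = orb G (a, i) then Additive.ofMul ⟨rv i a j b g, rv_mem i a j b g h⟩ else 0

theorem isCoc_rc (i : I) (a : A) : IsCoc (rc (G := G) i a) := by
  intro j b g h
  unfold rc
  by_cases hb : orb G (b, j) = orb G (a, i)
  · have hb' : orb G (mv (of g) b, j) = orb G (a, i) := by rw [orb_mv]; exact hb
    rw [dif_pos hb, dif_pos hb, dif_pos hb', ← ofMul_mul]
    congr 1
    exact Subtype.ext (rv_mul i a j b g h hb)
  · have hb' : ¬ orb G (mv (of g) b, j) = orb G (a, i) := by rw [orb_mv]; exact hb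
    rw [dif_neg hb, dif_neg hb, dif_neg hb', add_zero]

theorem gg_self_mem (i : I) (a : A) : gg (G := G) i a (a, i) ∈ Stb i a := by
  have h := congrArg Prod.fst (gg_spec (G := G) i a (a, i) rfl)
  exact h.symm

theorem rc_self (i : I) (a : A) (q : Stb (G := G) i a) :
    rc i a i a ((gg i a (a, i))⁻¹ * q.1 * gg i a (a, i)) = Additive.ofMul q := by
  unfold rc
  rw [dif_pos rfl]
  congr 1
  refine Subtype.ext ?_
  show rv i a i a _ = q.1
  have h1 : (gg i a (a, i))⁻¹ * q.1 * gg i a (a, i) ∈ Stb (G := G) i a :=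
    (Stb i a).mul_mem ((Stb i a).mul_mem ((Stb i a).inv_mem (gg_self_mem i a)) q.2)
      (gg_self_mem i a)
  have h2 : mv (of ((gg i a (a, i))⁻¹ * q.1 * gg i a (a, i))) a = a := h1
  unfold rv
  rw [h2, toI_self]
  group

/-- the stabiliser in a factor is a retract -/
theorem stb_fg (i : I) (a : A) (h : (StbF G a).FG) : (Stb (G := G) i a).FG := by
  have h1 : Group.FG (StbF G a) := (Group.fg_iff_subgroup_fg _).2 h
  rw [← Group.fg_iff_subgroup_fg]
  let ρ : StbF G a →* Stb (G := G) i a :=
    { toFun := fun w => (J (rc i a) (isCoc_rc i a) w.1 a).toMul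
      map_one' := by
        show (J (rc i a) (isCoc_rc i a) 1 a).toMul = 1
        rw [J_one]; rfl
      map_mul' := by
        intro w w'
        show (J (rc i a) (isCoc_rc i a) (w.1 * w'.1) a).toMul = _
        rw [J_mul, show mv w.1 a = a from w.2]
        rfl }
  have hρ : Function.Surjective ρ := by
    intro q
    have h1 : (gg i a (a, i))⁻¹ * q.1 * gg i a (a, i) ∈ Stb (G := G) i a :=
      (Stb i a).mul_mem ((Stb i a).mul_mem ((Stb i a).inv_mem (gg_self_mem i a)) q.2)
        (gg_self_mem i a)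
    refine ⟨⟨of ((gg i a (a, i))⁻¹ * q.1 * gg i a (a, i)), h1⟩, ?_⟩
    show (J (rc i a) (isCoc_rc i a) (of _) a).toMul = q
    rw [J_of, rc_self]
    rfl
  exact Group.fg_of_surjective hρ

/-- in a dead orbit the stabilisers are trivial -/
theorem stb_trivial (hLI : ∀ i, LocInd (G i)) (i : I) (a : A) (hfg : (StbF G a).FG)
    (hdead : ¬ Live (orb G (a, i))) (g : G i) (hg : mv (of g) a = a) : g = 1 := by
  by_contra hne
  obtain ⟨ψ, hψ⟩ := hLI i (Stb i a) (stb_fg i a hfg) (by
    intro h
    have h1 : g ∈ Stb (G := G) i a := hg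
    rw [h, Subgroup.mem_bot] at h1
    exact hne h1)
  obtain ⟨q, hq⟩ := hψ (Multiplicative.ofAdd 1)
  refine hdead ⟨fun j b h => ((ψ (rc i a j b h).toMul).toAdd : ℚ), ?_, ?_, i, a,
    (gg i a (a, i))⁻¹ * q.1 * gg i a (a, i), rfl, ?_, ?_⟩
  · intro j b g h
    simp only
    rw [isCoc_rc i a j b g h, toMul_add, MonoidHom.map_mul, toAdd_mul]
    push_cast
    rfl
  · intro j b g h
    simp only
    unfold rc
    rw [dif_neg h, toMul_zero, MonoidHom.map_one, toAdd_one]
    rfl
  · have h1 : (gg i a (a, i))⁻¹ * q.1 * gg i a (a, i) ∈ Stb (G := G) i a :=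
      (Stb i a).mul_mem ((Stb i a).mul_mem ((Stb i a).inv_mem (gg_self_mem i a)) q.2)
        (gg_self_mem i a)
    exact h1
  · simp only
    rw [rc_self, toMul_ofMul, hq, toAdd_ofAdd]
    norm_num

end stab

end Pool.Agent.V5helper80.Rel
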