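import Pool.Agent.V5helper80.Rel.Defs

/-!
# The rank inequality
-/

set_option autoImplicit false

namespace Pool.Agent.V5helper80.Rel

open Monoid (CoprodI)
open Monoid.CoprodI (of)

variable {I E A : Type} {G : I → Type} [∀ i, Group (G i)] [MulAction (CoprodI G) A]

/-- the coboundary on the edges -/
theorem isCoc_cob (τ : A × I → ℚ) :
    IsCoc (G := G) (fun i (a : A) (g : G i) => τ (mv (of g) a, i) - τ (a, i)) := by
  intro i a g h
  simp only
  rw [map_mul, mv_mul]
  ring

theorem isCoc_add {c d : ∀ i, A → G i → ℚ} (hc : IsCoc c) (hd : IsCoc d) :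
    IsCoc (fun i (a : A) (g : G i) => c i a g + d i a g) := by
  intro i a g h
  simp only
  rw [hc, hd]
  ring

theorem isCoc_one {c : ∀ i, A → G i → ℚ} (hc : IsCoc c) (i : I) (a : A) : c i a 1 = 0 := by
  have h := hc i a 1 1
  rw [mul_one, map_one, mv_one] at h
  linarith

theorem isCoc_conj {c : ∀ i, A → G i → ℚ} (hc : IsCoc c) (i : I) (a : A) (g h : G i)
    (hg : mv (of g) a = a) : c i (mv (of h) a) (h⁻¹ * g * h) = c i a g := by
  have h1 := hc i (mv (of h) a) h⁻¹ h
  rw [inv_mul_cancel, isCoc_one hc, map_inv, mv_inv] at h1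
  have h2 := hc i (mv (of h) a) h⁻¹ (g * h)
  rw [map_inv, mv_inv, hc i a g h, hg, ← mul_assoc] at h2
  rw [h2]
  linarith

open Classical in
theorem rank_ineq (D : Dat I E G) (S : Finset (A × I)) (F : Finset (E × A))
    (hS : S.Nonempty) (hz : D.HZ S F) :
    S.card + 1 ≤ F.card + (S.image Prod.fst).card +
      ((S.image (orb G)).filter fun κ => ¬ Live κ).card := by
  set K := S.image (orb G) with hK
  set K' := K.filter fun κ => Live κ with hK'
  have hlive : ∀ κ : K', Live κ.1 := fun κ => (Finset.mem_filter.1 κ.2).2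
  choose c hc1 hc2 hc3 using fun κ : K' => hlive κ
  -- the linear map
  let coc : (S → ℚ) × (K' → ℚ) → ∀ i, A → G i → ℚ := fun ts i a g =>
    ((if h : (mv (of g) a, i) ∈ S then ts.1 ⟨_, h⟩ else 0) -
      (if h : (a, i) ∈ S then ts.1 ⟨_, h⟩ else 0)) + ∑ κ : K', ts.2 κ * c κ i a g
  have hcoc : ∀ ts, IsCoc (coc ts) := by
    intro ts
    refine isCoc_add ?_ ?_
    · exact isCoc_cob (G := G) (fun x => if h : x ∈ S then ts.1 ⟨x, h⟩ else 0)
    · intro i a g h
      simp only
      rw [← Finset.sum_add_distrib]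
      refine Finset.sum_congr rfl fun κ _ => ?_
      rw [hc1 κ i a g h]
      ring
  have hcadd : ∀ ts ts' i a g, coc (ts + ts') i a g = coc ts i a g + coc ts' i a g := by
    intro ts ts' i a g
    have h3 : ∑ κ : K', (ts + ts').2 κ * c κ i a g =
        ∑ κ : K', ts.2 κ * c κ i a g + ∑ κ : K', ts'.2 κ * c κ i a g := by
      rw [← Finset.sum_add_distrib]
      refine Finset.sum_congr rfl fun κ _ => ?_
      rw [Prod.snd_add, Pi.add_apply]
      ring
    simp only [coc]
    rw [h3]
    split_ifs <;> try simp only [Prod.fst_add, Pi.add_apply]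
    all_goals ring
  have hcsmul : ∀ (r : ℚ) ts i a g, coc (r • ts) i a g = r * coc ts i a g := by
    intro r ts i a g
    have h3 : ∑ κ : K', (r • ts).2 κ * c κ i a g = r * ∑ κ : K', ts.2 κ * c κ i a g := by
      rw [Finset.mul_sum]
      refine Finset.sum_congr rfl fun κ _ => ?_
      rw [Prod.smul_snd, Pi.smul_apply, smul_eq_mul]
      ring
    simp only [coc]
    rw [h3]
    split_ifs <;> try simp only [Prod.smul_fst, Pi.smul_apply, smul_eq_mul]
    all_goals ring
  let Φ : ((S → ℚ) × (K' → ℚ)) →ₗ[ℚ] (F → ℚ) :=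
    { toFun := fun ts f =>
        coc ts _ (D.pos f.1 0 false) (D.sd f.1.1 0).2 +
          coc ts _ (D.pos f.1 1 false) (D.sd f.1.1 1).2 -
        (coc ts _ (D.pos f.1 2 false) (D.sd f.1.1 2).2 +
          coc ts _ (D.pos f.1 3 false) (D.sd f.1.1 3).2)
      map_add' := by
        intro ts ts'
        funext f
        simp only [Pi.add_apply, hcadd]
        ring
      map_smul' := by
        intro r ts
        funext f
        simp only [Pi.smul_apply, hcsmul, smul_eq_mul, RingHom.id_apply]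
        ring }
  let B := S.image Prod.fst
  have hB : ∀ x : S, x.1.1 ∈ B := fun x => Finset.mem_image_of_mem _ x.2
  have hKm : ∀ x : S, orb G x.1 ∈ K := fun x => Finset.mem_image_of_mem _ x.2
  let Ψ : ((B → ℚ) × (K → ℚ)) →ₗ[ℚ] ((S → ℚ) × (K' → ℚ)) :=
    { toFun := fun dk => (fun x => dk.1 ⟨x.1.1, hB x⟩ + dk.2 ⟨orb G x.1, hKm x⟩, 0)
      map_add' := by
        intro d d'
        refine Prod.ext ?_ ?_
        · funext x
          simp only [Prod.fst_add, Prod.snd_add, Pi.add_apply]
          ring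
        · simp
      map_smul' := by
        intro r d
        refine Prod.ext ?_ ?_
        · funext x
          simp only [Prod.smul_fst, Prod.smul_snd, Pi.smul_apply, smul_eq_mul, RingHom.id_apply]
          ring
        · simp }
  have hle : LinearMap.ker Φ ≤ LinearMap.range Ψ := by
    rintro ⟨τ, s⟩ hts
    rw [LinearMap.mem_ker] at hts
    obtain ⟨δ, hδ⟩ := hz (coc (τ, s)) (hcoc _) (by
      intro f hf
      have h1 := congrFun hts ⟨f, hf⟩
      have h2 : coc (τ, s) _ (D.pos f 0 false) (D.sd f.1 0).2 +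
          coc (τ, s) _ (D.pos f 1 false) (D.sd f.1 1).2 -
        (coc (τ, s) _ (D.pos f 2 false) (D.sd f.1 2).2 +
          coc (τ, s) _ (D.pos f 3 false) (D.sd f.1 3).2) = 0 := h1
      unfold Dat.Eqn
      linarith)
    have hs : s = 0 := by
      funext κ
      obtain ⟨i, a, g, hκ, hg, hne⟩ := hc3 κ
      obtain ⟨⟨b, j⟩, hb, hb'⟩ := Finset.mem_image.1 (Finset.mem_filter.1 κ.2).1
      obtain ⟨h, hh⟩ := orb_eq.1 (hκ.trans hb'.symm)
      obtain ⟨rfl, rfl⟩ := Prod.mk.inj hh
      have h1 : mv (of (h⁻¹ * g * h)) (mv (of h) a) = mv (of h) a := by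
        rw [map_mul, map_mul, mv_mul, mv_mul, map_inv, mv_inv, hg]
      have h2 := hδ j (mv (of h) a) (h⁻¹ * g * h) hb (by rw [h1]; exact hb)
      rw [h1, sub_self] at h2
      have h3 : coc (τ, s) j (mv (of h) a) (h⁻¹ * g * h) = s κ * c κ j a g := by
        simp only [coc]
        rw [h1, sub_self, zero_add, Finset.sum_eq_single κ]
        · rw [isCoc_conj (hc1 κ) j a g h hg]
        · intro κ' _ hne'
          rw [hc2 κ' j _ _ ?_, mul_zero]
          intro h4
          rw [hb'] at h4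
          exact hne' (Subtype.ext h4.symm)
        · intro h4
          exact absurd (Finset.mem_univ _) h4
      rw [h3] at h2
      exact (mul_eq_zero.1 h2).resolve_right hne
    subst hs
    have hτ : ∀ (i : I) (a : A) (g : G i) (h1 : (a, i) ∈ S) (h2 : (mv (of g) a, i) ∈ S),
        τ ⟨_, h2⟩ - τ ⟨_, h1⟩ = δ (mv (of g) a) - δ a := by
      intro i a g h1 h2
      rw [← hδ i a g h1 h2]
      simp only [coc]
      rw [dif_pos h1, dif_pos h2]
      simp
    have hrep : ∀ κ : K, ∃ x : S, orb G x.1 = κ.1 := fun κ => by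
      obtain ⟨x, hx, hx'⟩ := Finset.mem_image.1 κ.2
      exact ⟨⟨x, hx⟩, hx'⟩
    choose rep hrep using hrep
    refine ⟨(fun b => δ b.1, fun κ => τ (rep κ) - δ (rep κ).1.1), ?_⟩
    refine Prod.ext ?_ rfl
    funext x
    show δ x.1.1 + (τ (rep ⟨orb G x.1, hKm x⟩) - δ (rep ⟨orb G x.1, hKm x⟩).1.1) = τ x
    have h1 := hrep ⟨orb G x.1, hKm x⟩
    set y := rep ⟨orb G x.1, hKm x⟩
    obtain ⟨⟨a, i⟩, hx⟩ := x
    obtain ⟨⟨b, j⟩, hy⟩ := y
    obtain ⟨g, hg⟩ := orb_eq.1 h1
    obtain ⟨rfl, rfl⟩ := Prod.mk.inj hg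
    have h2 := hτ i b g hy hx
    show δ (mv (of g) b) + (τ ⟨(b, i), hy⟩ - δ b) = τ ⟨(mv (of g) b, i), hx⟩
    linarith
  have h1 := LinearMap.finrank_range_add_finrank_ker Φ
  have h2 := LinearMap.finrank_range_add_finrank_ker Ψ
  have h3 : Module.finrank ℚ (LinearMap.range Φ) ≤ F.card := by
    have := Submodule.finrank_le (LinearMap.range Φ)
    simpa using this
  have h4 : Module.finrank ℚ (LinearMap.ker Φ) ≤ Module.finrank ℚ (LinearMap.range Ψ) :=
    Submodule.finrank_mono hle
  have h5 : 1 ≤ Module.finrank ℚ (LinearMap.ker Ψ) := by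
    have hne : LinearMap.ker Ψ ≠ ⊥ := by
      intro h
      have h6 : ((fun _ => (1 : ℚ), fun _ => (-1 : ℚ)) : (B → ℚ) × (K → ℚ)) ∈
          LinearMap.ker Ψ := by
        rw [LinearMap.mem_ker]
        refine Prod.ext ?_ rfl
        funext x
        show (1 : ℚ) + -1 = 0
        norm_num
      rw [h, Submodule.mem_bot] at h6
      obtain ⟨x, hx⟩ := hS
      have := congrFun (congrArg Prod.fst h6) ⟨x.1, Finset.mem_image_of_mem _ hx⟩
      simp at this
    have : 0 < Module.finrank ℚ (LinearMap.ker Ψ) := by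
      rw [Module.finrank_pos_iff]
      exact Submodule.nontrivial_iff_ne_bot.2 hne
    omega
  have h6 : Module.finrank ℚ ((S → ℚ) × (K' → ℚ)) = S.card + K'.card := by
    rw [Module.finrank_prod]; simp
  have h7 : Module.finrank ℚ ((B → ℚ) × (K → ℚ)) = B.card + K.card := by
    rw [Module.finrank_prod]; simp
  have h8 : K'.card + (K.filter fun κ => ¬ Live κ).card = K.card := by
    rw [hK']
    exact Finset.card_filter_add_card_filter_not _
  have h9 : B.card = (S.image Prod.fst).card := rfl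
  omega

end Pool.Agent.V5helper80.Rel
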