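import Pool.Agent.V5helper80.Rel.Count

/-!
# Removing an edge that is passed at most once
-/

set_option autoImplicit false

namespace Pool.Agent.V5helper80.Rel

open Monoid (CoprodI)
open Monoid.CoprodI (of)

variable {I E A : Type} {G : I → Type} [∀ i, Group (G i)] [MulAction (CoprodI G) A]

/-- the property of the potential -/
def Pot {Q : Type} [Group Q] (π : CoprodI G →* Q) (S : Set (A × I)) (p : A → Q) : Prop :=
  ∀ (i : I) (a : A) (g : G i), (a, i) ∈ S → (mv (of g) a, i) ∈ S →
    p (mv (of g) a) = p a * π (of g)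

theorem Pot.mono {Q : Type} [Group Q] {π : CoprodI G →* Q} {S T : Set (A × I)} {p : A → Q}
    (h : Pot π S p) (hT : T ⊆ S) : Pot π T p := fun i a g h1 h2 => h i a g (hT h1) (hT h2)

/-- one more point of an orbit -/
theorem Pot.extend {Q : Type} [Group Q] {π : CoprodI G →* Q} {T : Set (A × I)} {p : A → Q}
    (hp : Pot π T p) (i : I) (b : A) (h : G i) (hb : (b, i) ∈ T)
    (hpa : p (mv (of h) b) = p b * π (of h)) : Pot π (insert (mv (of h) b, i) T) p := by
  have h1 : ∀ g : G i, (mv (of g) (mv (of h) b), i) ∈ T →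
      p (mv (of g) (mv (of h) b)) = p (mv (of h) b) * π (of g) := by
    intro g hg
    have h2 : mv (of g) (mv (of h) b) = mv (of (h * g)) b := by rw [map_mul, mv_mul]
    rw [h2] at hg ⊢
    rw [hp i b (h * g) hb hg, hpa, map_mul, map_mul, mul_assoc]
  have h2 : ∀ g : G i, mv (of g) (mv (of h) b) = mv (of h) b → π (of g) = 1 := by
    intro g hg
    have h3 : mv (of (h * g * h⁻¹)) b = b := by
      rw [map_mul, map_mul, mv_mul, mv_mul, hg, map_inv, mv_inv]
    have h4 := hp i b (h * g * h⁻¹) hb (by rw [h3]; exact hb)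
    rw [h3] at h4
    have h5 : π (of (h * g * h⁻¹)) = 1 := (mul_eq_left.1 h4.symm)
    rw [map_mul, map_mul, map_mul, map_mul, map_inv, map_inv] at h5
    have h6 : π (of h) * π (of g) = π (of h) := mul_inv_eq_one.1 h5
    exact mul_eq_left.1 h6
  intro j a g ha hga
  rcases ha with ha | ha
  · obtain ⟨rfl, rfl⟩ := Prod.mk.inj ha
    rcases hga with hga | hga
    · have h3 := congrArg Prod.fst hga
      simp only at h3
      rw [h3, h2 g h3, mul_one]
    · exact h1 g hga
  · rcases hga with hga | hga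
    · obtain ⟨h4, rfl⟩ := Prod.mk.inj hga
      have h5 : a = mv (of g⁻¹) (mv (of h) b) := by rw [← h4, map_inv, mv_inv]
      have h6 := h1 g⁻¹ (by rw [← h5]; exact ha)
      rw [← h5] at h6
      rw [h4, h6, map_inv, map_inv, inv_mul_cancel_right]
    · exact hp j a g ha hga

theorem triv_iff {Q : Type} [Group Q] (π : CoprodI G →* Q) (S : Finset (A × I)) :
    Triv π S ↔ ∃ p : A → Q, Pot π (S : Set (A × I)) p := by
  unfold Triv Pot
  simp

section
open Classical
variable {D : Dat I E G}

/-- the sum of a cocycle around a 2-cell -/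
def Dat.ar (D : Dat I E G) (c : ∀ i, A → G i → ℚ) (f : E × A) : ℚ :=
  c _ (D.pos f 0 false) (D.sd f.1 0).2 + c _ (D.pos f 1 false) (D.sd f.1 1).2 -
    (c _ (D.pos f 2 false) (D.sd f.1 2).2 + c _ (D.pos f 3 false) (D.sd f.1 3).2)

theorem eqn_iff (c : ∀ i, A → G i → ℚ) (f : E × A) :
    D.Eqn c f ↔ D.ar c f = 0 := by
  unfold Dat.Eqn Dat.ar
  constructor
  · intro h; linarith
  · intro h; linarith

/-- the coboundary of the indicator function of `s` -/
noncomputable def ind (G : I → Type) [∀ i, Group (G i)] [MulAction (CoprodI G) A] (s : A × I) :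
    ∀ i, A → G i → ℚ := fun i a g =>
  (if (mv (of g) a, i) = s then 1 else 0) - (if (a, i) = s then 1 else 0)

theorem isCoc_ind (s : A × I) : IsCoc (ind G s) :=
  isCoc_cob (G := G) fun x => if x = s then (1 : ℚ) else 0

theorem ind_side (s : A × I) (f : E × A) (k : Fin 4) :
    ind G s _ (D.pos f k false) (D.sd f.1 k).2 =
      (if D.ts f (k, true) = s then 1 else 0) - (if D.ts f (k, false) = s then 1 else 0) := by
  unfold ind Dat.ts
  simp only [D.pos_true]

theorem ar_ind_zero (s : A × I) (f : E × A) (h : ∀ q, D.ts f q ≠ s) : D.ar (ind G s) f = 0 := by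
  unfold Dat.ar
  rw [ind_side, ind_side, ind_side, ind_side]
  simp [h]

theorem ar_ind_ne (s : A × I) (f : E × A) (q : Fin 4 × Bool) (hq : D.ts f q = s)
    (h : ∀ q', D.ts f q' = s → q' = q) : D.ar (ind G s) f ≠ 0 := by
  have hv : ∀ q', D.ts f q' = s ↔ q' = q := fun q' => ⟨h q', fun h1 => by rw [h1]; exact hq⟩
  unfold Dat.ar
  rw [ind_side, ind_side, ind_side, ind_side]
  simp only [hv]
  clear hv h hq
  obtain ⟨k, β⟩ := q
  have e : ∀ (k' : Fin 4) (β' : Bool), ((k', β') = (k, β)) = (k' = k ∧ β' = β) := fun _ _ => by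
    rw [Prod.mk.injEq]
  simp only [e]
  fin_cases k <;> cases β <;> norm_num [Fin.ext_iff]

theorem ar_add (c d : ∀ i, A → G i → ℚ) (t : ℚ) (f : E × A) :
    D.ar (fun i a g => c i a g + t * d i a g) f = D.ar c f + t * D.ar d f := by
  unfold Dat.ar
  ring

theorem isCoc_smul {c : ∀ i, A → G i → ℚ} (hc : IsCoc c) (t : ℚ) :
    IsCoc (fun i (a : A) (g : G i) => t * c i a g) := by
  intro i a g h
  simp only
  rw [hc]
  ring

/-- the fourth side in the group -/
theorem last_side {Q : Type} [Group Q] (π : CoprodI G →* Q) (hπ : ∀ e, π (D.rel e) = 1)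
    (p : A → Q) (f : E × A) (hf : D.Closed f) (k : Fin 4)
    (h : ∀ k', k' ≠ k → p (D.pos f k' true) = p (D.pos f k' false) * π (of (D.sd f.1 k').2)) :
    p (D.pos f k true) = p (D.pos f k false) * π (of (D.sd f.1 k).2) := by
  have hrel : π (of (D.sd f.1 0).2) * π (of (D.sd f.1 1).2) =
      π (of (D.sd f.1 2).2) * π (of (D.sd f.1 3).2) := by
    have h1 := hπ f.1
    unfold Dat.rel Dat.en at h1
    have e1 : D.st f.1 1 = of (D.sd f.1 0).2 := rfl
    have e3 : D.st f.1 3 = of (D.sd f.1 2).2 := rfl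
    rw [e1, e3, map_mul, map_mul, map_inv, map_mul, mul_inv_eq_one] at h1
    exact h1
  have ha := D.pos_corner_a f
  have hb := D.pos_corner_b f
  have hc := D.pos_corner_c f
  unfold Dat.Closed at hf
  have ha' := congrArg p ha
  have hb' := congrArg p hb
  have hc' := congrArg p hc
  have hd' := congrArg p hf
  fin_cases k
  · have h1 := h 1 (by decide)
    have h2 := h 2 (by decide)
    have h3 := h 3 (by decide)
    refine mul_right_cancel (b := π (of (D.sd f.1 1).2)) ?_
    show p (D.pos f 0 true) * _ = p (D.pos f 0 false) * π (of (D.sd f.1 0).2) * _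
    rw [hb', ← h1, hd', h3, ← hc', h2, ← ha', mul_assoc, ← hrel, mul_assoc]
  · have h1 := h 0 (by decide)
    have h2 := h 2 (by decide)
    have h3 := h 3 (by decide)
    show p (D.pos f 1 true) = p (D.pos f 1 false) * π (of (D.sd f.1 1).2)
    rw [hd', h3, ← hc', h2, ← ha', mul_assoc, ← hrel, ← mul_assoc, ← h1, hb']
  · have h1 := h 0 (by decide)
    have h2 := h 1 (by decide)
    have h3 := h 3 (by decide)
    refine mul_right_cancel (b := π (of (D.sd f.1 3).2)) ?_
    show p (D.pos f 2 true) * _ = p (D.pos f 2 false) * π (of (D.sd f.1 2).2) * _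
    rw [hc', ← h3, ← hd', h2, ← hb', h1, ← ha', mul_assoc, hrel, mul_assoc]
  · have h1 := h 0 (by decide)
    have h2 := h 1 (by decide)
    have h3 := h 2 (by decide)
    show p (D.pos f 3 true) = p (D.pos f 3 false) * π (of (D.sd f.1 3).2)
    rw [← hd', h2, ← hb', h1, mul_assoc, hrel, ← mul_assoc, ha', ← h3, hc']

variable {S : Finset (A × I)} {F : Finset (E × A)}

theorem Cplx.erase_edge (hC : D.Cplx S F) (s : A × I) (hs : D.passes F s = ∅) :
    D.Cplx (S.erase s) F := by
  intro f hf
  refine ⟨(hC f hf).1, fun q => Finset.mem_erase.2 ⟨?_, (hC f hf).2 q⟩⟩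
  intro h
  have : (f, q) ∈ D.passes F s := Dat.mem_passes.2 ⟨hf, h⟩
  rw [hs] at this
  exact absurd this (Finset.notMem_empty _)

/-- an edge without passes -/
theorem step_zero {Q : Type} [Group Q] (π : CoprodI G →* Q)
    (hst : ∀ (i : I) (a : A) (g : G i), ¬ Live (orb G (a, i)) → mv (of g) a = a → π (of g) = 1)
    (hC : D.Cplx S F) (hz : D.HZ S F) (s : A × I) (hsS : s ∈ S) (hs : D.passes F s = ∅) :
    D.HZ (S.erase s) F ∧ (Triv π (S.erase s) → Triv π S) := by
  have hne : ∀ f ∈ F, ∀ q, D.ts f q ≠ s := by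
    intro f hf q h
    have : (f, q) ∈ D.passes F s := Dat.mem_passes.2 ⟨hf, h⟩
    rw [hs] at this
    exact absurd this (Finset.notMem_empty _)
  constructor
  · intro c hc hc'
    obtain ⟨δ, hδ⟩ := hz c hc hc'
    exact ⟨δ, fun i a g h1 h2 => hδ i a g (Finset.mem_of_mem_erase h1)
      (Finset.mem_of_mem_erase h2)⟩
  · rw [triv_iff, triv_iff]
    rintro ⟨p, hp⟩
    obtain ⟨a, i⟩ := s
    by_cases hB : ∃ g0 : G i, (mv (of g0) a, i) ∈ S.erase (a, i)
    · obtain ⟨g0, hg0⟩ := hB
      obtain ⟨δ, hδ⟩ := hz (ind G (a, i)) (isCoc_ind _) (by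
        intro f hf
        rw [eqn_iff]
        exact ar_ind_zero _ f (hne f hf))
      have hg0S := Finset.mem_of_mem_erase hg0
      have hg0ne := Finset.ne_of_mem_erase hg0
      have h1 := hδ i a g0 hsS hg0S
      unfold ind at h1
      rw [if_neg hg0ne, if_pos rfl] at h1
      let u : Q := p (mv (of g0) a) * (π (of g0))⁻¹ * (p a)⁻¹
      let p' : A → Q := fun y => if δ y = δ a then u * p y else p y
      have hp' : Pot π ((S.erase (a, i) : Finset (A × I)) : Set (A × I)) p' := by
        intro j b g hb hgb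
        have hb' := Finset.mem_coe.1 hb
        have hgb' := Finset.mem_coe.1 hgb
        have h2 := hδ j b g (Finset.mem_of_mem_erase hb') (Finset.mem_of_mem_erase hgb')
        unfold ind at h2
        rw [if_neg (Finset.ne_of_mem_erase hb'), if_neg (Finset.ne_of_mem_erase hgb')] at h2
        have h3 : δ (mv (of g) b) = δ b := by linarith
        have h4 := hp j b g hb hgb
        simp only [p', h3]
        split_ifs
        · rw [h4]
          exact (mul_assoc u _ _).symm
        · exact h4
      have h5 : p' (mv (of g0) a) = p (mv (of g0) a) := by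
        simp only [p']
        rw [if_neg]
        intro h6
        rw [h6] at h1
        norm_num at h1
      have h6 : p' a = u * p a := by simp only [p', if_true]
      have h7 : p' (mv (of g0⁻¹) (mv (of g0) a)) = p' (mv (of g0) a) * π (of g0⁻¹) := by
        rw [map_inv, map_inv, mv_inv, h5, h6]
        simp only [u]
        rw [inv_mul_cancel_right]
      have h8 := hp'.extend i (mv (of g0) a) g0⁻¹ (Finset.mem_coe.2 hg0) h7
      refine ⟨p', h8.mono ?_⟩
      intro x hx
      by_cases hxs : x = (a, i)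
      · left
        rw [hxs, map_inv, mv_inv]
      · right
        exact Finset.mem_coe.2 (Finset.mem_erase.2 ⟨hxs, hx⟩)
    · -- the orbit has only one edge
      push Not at hB
      have hB' : ∀ x ∈ S, orb G x = orb G (a, i) → x = (a, i) := by
        rintro ⟨b, j⟩ hx hxo
        obtain ⟨g, hg⟩ := orb_eq.1 hxo.symm
        by_contra hne'
        refine hB g ?_
        rw [← hg]
        exact Finset.mem_erase.2 ⟨hne', hx⟩
      have hdead : ¬ Live (orb G (a, i)) := by
        rintro ⟨c, hc, hsupp, j, b, g, hb, hg, hne'⟩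
        obtain ⟨δ, hδ⟩ := hz c hc (by
          intro f hf
          have h0 : ∀ k, c _ (D.pos f k false) (D.sd f.1 k).2 = 0 := by
            intro k
            refine hsupp _ _ _ fun h => ?_
            exact hne f hf (k, false) (hB' _ ((hC f hf).2 (k, false)) h)
          unfold Dat.Eqn
          rw [h0, h0, h0, h0])
        obtain ⟨h, hh⟩ := orb_eq.1 hb
        obtain ⟨rfl, rfl⟩ := Prod.mk.inj hh
        have h1 : mv (of (h⁻¹ * g * h)) (mv (of h) b) = mv (of h) b := by
          rw [map_mul, map_mul, mv_mul, mv_mul, map_inv, mv_inv, hg]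
        have h2 := hδ i (mv (of h) b) (h⁻¹ * g * h) hsS (by rw [h1]; exact hsS)
        rw [h1, sub_self, isCoc_conj hc i b g h hg] at h2
        exact hne' h2
      refine ⟨p, ?_⟩
      intro j b g hb hgb
      by_cases hbs : (b, j) = (a, i)
      · obtain ⟨rfl, rfl⟩ := Prod.mk.inj hbs
        have h1 := hB' _ (Finset.mem_coe.1 hgb) (orb_mv _ _ _)
        have h2 : mv (of g) b = b := congrArg Prod.fst h1
        rw [h2, hst j b g hdead h2, mul_one]
      · have hgbs : (mv (of g) b, j) ≠ (a, i) := by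
          intro h
          refine hbs (hB' _ (Finset.mem_coe.1 hb) ?_)
          rw [← h, orb_mv]
        exact hp j b g (Finset.mem_coe.2 (Finset.mem_erase.2 ⟨hbs, hb⟩))
          (Finset.mem_coe.2 (Finset.mem_erase.2 ⟨hgbs, hgb⟩))

/-- an edge with one pass -/
theorem step_one {Q : Type} [Group Q] (π : CoprodI G →* Q) (hπ : ∀ e, π (D.rel e) = 1)
    (hC : D.Cplx S F) (hz : D.HZ S F) (s : A × I) (f : E × A) (q : Fin 4 × Bool)
    (hs : D.passes F s = {(f, q)}) :
    D.Cplx (S.erase s) (F.erase f) ∧ D.HZ (S.erase s) (F.erase f) ∧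
      (Triv π (S.erase s) → Triv π S) := by
  have hfq : (f, q) ∈ D.passes F s := by rw [hs]; exact Finset.mem_singleton_self _
  obtain ⟨hf, hq⟩ := Dat.mem_passes.1 hfq
  simp only at hf hq
  have huniq : ∀ f' ∈ F, ∀ q', D.ts f' q' = s → f' = f ∧ q' = q := by
    intro f' hf' q' h
    have : (f', q') ∈ D.passes F s := Dat.mem_passes.2 ⟨hf', h⟩
    rw [hs, Finset.mem_singleton] at this
    exact ⟨congrArg Prod.fst this, congrArg Prod.snd this⟩
  refine ⟨?_, ?_, ?_⟩
  · intro f' hf'
    have hf'F := Finset.mem_of_mem_erase hf'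
    refine ⟨(hC f' hf'F).1, fun q' => Finset.mem_erase.2 ⟨?_, (hC f' hf'F).2 q'⟩⟩
    intro h
    exact (Finset.ne_of_mem_erase hf') (huniq f' hf'F q' h).1
  · intro c hc hc'
    have h1 : D.ar (ind G s) f ≠ 0 := ar_ind_ne s f q hq fun q' h => (huniq f hf q' h).2
    set t : ℚ := - D.ar c f / D.ar (ind G s) f with ht
    obtain ⟨δ, hδ⟩ := hz (fun i a g => c i a g + t * ind G s i a g)
      (isCoc_add hc (isCoc_smul (isCoc_ind s) t)) (by
        intro f' hf'
        rw [eqn_iff, ar_add]
        by_cases h : f' = f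
        · rw [h, ht]
          field_simp
          ring
        · have h2 := (eqn_iff c f').1 (hc' f' (Finset.mem_erase.2 ⟨h, hf'⟩))
          rw [h2, ar_ind_zero s f' (fun q' h' => h (huniq f' hf' q' h').1)]
          ring)
    refine ⟨δ, fun i a g ha hga => ?_⟩
    have h3 := hδ i a g (Finset.mem_of_mem_erase ha) (Finset.mem_of_mem_erase hga)
    unfold ind at h3
    rw [if_neg (Finset.ne_of_mem_erase ha), if_neg (Finset.ne_of_mem_erase hga)] at h3
    linarith
  · rw [triv_iff, triv_iff]
    rintro ⟨p, hp⟩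
    refine ⟨p, ?_⟩
    obtain ⟨k, β⟩ := q
    have hmem : ∀ q', q' ≠ (k, β) → D.ts f q' ∈ S.erase s := fun q' hq' =>
      Finset.mem_erase.2 ⟨fun h => hq' (huniq f hf q' h).2, (hC f hf).2 q'⟩
    have hside : ∀ k', k' ≠ k →
        p (D.pos f k' true) = p (D.pos f k' false) * π (of (D.sd f.1 k').2) := by
      intro k' hk'
      have h1 := hmem (k', true) (fun h => hk' (congrArg Prod.fst h))
      have h2 := hmem (k', false) (fun h => hk' (congrArg Prod.fst h))
      unfold Dat.ts at h1 h2
      simp only at h1 h2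
      rw [D.pos_true] at h1 ⊢
      exact hp _ _ _ h2 h1
    have hlast := last_side π hπ p f (hC f hf).1 k hside
    have hother := hmem (k, !β) (fun h => by simp at h)
    unfold Dat.ts at hother hq
    simp only at hother hq
    rw [D.pos_true] at hlast
    cases β
    · -- the missing edge is at the start
      rw [Bool.not_false, D.pos_true] at hother
      have h1 : p (mv (of (D.sd f.1 k).2⁻¹) (mv (of (D.sd f.1 k).2) (D.pos f k false))) =
          p (mv (of (D.sd f.1 k).2) (D.pos f k false)) * π (of (D.sd f.1 k).2⁻¹) := by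
        rw [map_inv, mv_inv, map_inv, hlast, mul_inv_cancel_right]
      have h2 := hp.extend _ _ _ (Finset.mem_coe.2 hother) h1
      rw [map_inv, mv_inv, hq] at h2
      refine h2.mono ?_
      intro x hx
      by_cases hxs : x = s
      · exact Or.inl hxs
      · exact Or.inr (Finset.mem_coe.2 (Finset.mem_erase.2 ⟨hxs, hx⟩))
    · -- the missing edge is at the end
      rw [Bool.not_true] at hother
      rw [D.pos_true] at hq
      have h2 := hp.extend _ _ _ (Finset.mem_coe.2 hother) hlast
      rw [hq] at h2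
      refine h2.mono ?_
      intro x hx
      by_cases hxs : x = s
      · exact Or.inl hxs
      · exact Or.inr (Finset.mem_coe.2 (Finset.mem_erase.2 ⟨hxs, hx⟩))

/-- the induction -/
theorem triv_of_HZ {J : I → Prop} {Q : Type} [Group Q] (π : CoprodI G →* Q)
    (hπ : ∀ e, π (D.rel e) = 1)
    (hst : ∀ (i : I) (a : A) (g : G i), ¬ Live (orb G (a, i)) → mv (of g) a = a → π (of g) = 1)
    (h0 : Forest D.cl (D.gc J)) (h1 : Forest D.cl (D.gc (fun i => ¬ J i)))
    (ht : ∀ i, G i →* Multiplicative ℤ) (hpos : ∀ e k, 0 < (ht _ (D.sd e k).2).toAdd) :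
    ∀ (m : ℕ) (S : Finset (A × I)) (F : Finset (E × A)), S.card = m → D.Cplx S F →
      D.HZ S F → Triv π S := by
  intro m
  induction m using Nat.strong_induction_on with
  | _ m ih =>
    intro S F hm hC hz
    rcases S.eq_empty_or_nonempty with hS0 | hS
    · exact ⟨fun _ => 1, fun i a g h => by rw [hS0] at h; exact absurd h (Finset.notMem_empty _)⟩
    by_cases hall : ∀ s ∈ S, 2 ≤ (D.passes F s).card
    · exfalso
      have h2 := ineq h0 h1 ht hpos hC hall
      have h3 := rank_ineq D S F hS hz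
      omega
    · push Not at hall
      obtain ⟨s, hs, hlt⟩ := hall
      have hcard : (S.erase s).card < m := by
        rw [← hm]; exact Finset.card_erase_lt_of_mem hs
      have h3 : (D.passes F s).card = 0 ∨ (D.passes F s).card = 1 := by omega
      rcases h3 with h3 | h3
      · have h4 := Finset.card_eq_zero.1 h3
        obtain ⟨h5, h6⟩ := step_zero π hst hC hz s hs h4
        exact h6 (ih _ hcard _ _ rfl (Cplx.erase_edge hC s h4) h5)
      · obtain ⟨⟨f, q⟩, h4⟩ := Finset.card_eq_one.1 h3
        obtain ⟨h5, h6, h7⟩ := step_one π hπ hC hz s f q h4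
        exact h7 (ih _ hcard _ _ rfl h5 h6)

end

end Pool.Agent.V5helper80.Rel
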