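import Pool.Agent.V5helper80.Rel.Log

/-!
# Two parts connected by one edge
-/

set_option autoImplicit false

namespace Pool.Agent.V5helper80.Rel

open Monoid (CoprodI)
open Monoid.CoprodI (of)
open Pool.Agent.TH625.LOG

/-- three indices -/
inductive Ix
  | a
  | b
  | d
  deriving DecidableEq

/-- the three groups -/
def GG (G₁ G₂ : Type) : Ix → Type
  | .a => G₁
  | .b => G₂
  | .d => Multiplicative ℤ

instance (G₁ G₂ : Type) [Group G₁] [Group G₂] : ∀ i, Group (GG G₁ G₂ i)
  | .a => inferInstanceAs (Group G₁)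
  | .b => inferInstanceAs (Group G₂)
  | .d => inferInstanceAs (Group (Multiplicative ℤ))

/-- the relation `u d = d w` -/
def dat2 {G₁ G₂ : Type} (u : G₁) (w : G₂) : Dat Ix Unit (GG G₁ G₂) where
  ci _ := .a
  cl _ := .d
  ct _ := .b
  x _ := u
  y _ := (Multiplicative.ofAdd 1 : Multiplicative ℤ)
  y' _ := (Multiplicative.ofAdd 1 : Multiplicative ℤ)
  z _ := w

section
variable {G₁ G₂ : Type} [Group G₁] [Group G₂]

/-- the inclusions -/
def ia (G₁ G₂ : Type) [Group G₁] [Group G₂] : G₁ →* CoprodI (GG G₁ G₂) :=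
  of (M := GG G₁ G₂) (i := .a)

def ib (G₁ G₂ : Type) [Group G₁] [Group G₂] : G₂ →* CoprodI (GG G₁ G₂) :=
  of (M := GG G₁ G₂) (i := .b)

def idd (G₁ G₂ : Type) [Group G₁] [Group G₂] : Multiplicative ℤ →* CoprodI (GG G₁ G₂) :=
  of (M := GG G₁ G₂) (i := .d)

theorem rel_dat2 (u : G₁) (w : G₂) (e : Unit) : (dat2 u w).rel e =
    (ia G₁ G₂ u * idd G₁ G₂ (Multiplicative.ofAdd 1)) *
      (idd G₁ G₂ (Multiplicative.ofAdd 1) * ib G₁ G₂ w)⁻¹ := rfl

theorem locInd_dat2 (h₁ : G₁ →* Multiplicative ℤ) (h₂ : G₂ →* Multiplicative ℤ) (u : G₁) (w : G₂)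
    (hu : 0 < (h₁ u).toAdd) (hw : 0 < (h₂ w).toAdd) (l₁ : LocInd G₁) (l₂ : LocInd G₂) :
    LocInd (CoprodI (GG G₁ G₂) ⧸ Subgroup.normalClosure (Set.range (dat2 u w).rel)) := by
  classical
  refine locInd_rel (dat2 u w) (fun _ => False) ?_ ?_
    (fun i => match i with
      | .a => h₁
      | .b => h₂
      | .d => MonoidHom.id (Multiplicative ℤ)) ?_ ?_
    (QuotientGroup.mk' _) (QuotientGroup.mk'_surjective _) (QuotientGroup.ker_mk' _)
  · intro U D hU hD
    rcases D.eq_empty_or_nonempty with h | ⟨e, he⟩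
    · rw [h, Finset.card_empty]
      exact Finset.card_pos.2 hU
    · have h1 := hD e he
      have h2 : ({Ix.d, Ix.a} : Finset Ix) ⊆ U := by
        intro x hx
        rcases Finset.mem_insert.1 hx with rfl | hx
        · exact h1.1
        · rw [Finset.mem_singleton] at hx
          subst hx
          have h3 := h1.2
          unfold Dat.gc at h3
          rw [if_neg (by exact not_false)] at h3
          exact h3
      have h3 := Finset.card_le_card h2
      have h4 : D.card ≤ 1 := (Finset.card_le_univ D).trans (by simp)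
      have h5 : ({Ix.d, Ix.a} : Finset Ix).card = 2 := rfl
      omega
  · intro U D hU hD
    rcases D.eq_empty_or_nonempty with h | ⟨e, he⟩
    · rw [h, Finset.card_empty]
      exact Finset.card_pos.2 hU
    · have h1 := hD e he
      have h2 : ({Ix.d, Ix.b} : Finset Ix) ⊆ U := by
        intro x hx
        rcases Finset.mem_insert.1 hx with rfl | hx
        · exact h1.1
        · rw [Finset.mem_singleton] at hx
          subst hx
          have h3 := h1.2
          unfold Dat.gc at h3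
          rw [if_pos (by exact not_false)] at h3
          exact h3
      have h3 := Finset.card_le_card h2
      have h4 : D.card ≤ 1 := (Finset.card_le_univ D).trans (by simp)
      have h5 : ({Ix.d, Ix.b} : Finset Ix).card = 2 := rfl
      omega
  · intro e k
    fin_cases k
    · exact hu
    · show (0 : ℤ) < 1
      norm_num
    · show (0 : ℤ) < 1
      norm_num
    · exact hw
  · intro i
    cases i
    · exact l₁
    · exact l₂
    · exact locInd_int

end

variable {V E : Type}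

theorem partHom_gen (L : LOG V E) (p : V → Prop) (v : {v // p v}) :
    partHom L p ((part L p).gen v) = L.gen v.1 := liftG_gen _ _ _ _

/-- `L` consists of two parts which are connected by one edge `e₀`, whose label belongs to the first
part -/
theorem locInd_two (L : LOG V E) (p : V → Prop) (e₀ : E) (h0 : p (L.lab e₀))
    (h1 : (p (L.ini e₀) ∧ ¬ p (L.ter e₀)) ∨ (¬ p (L.ini e₀) ∧ p (L.ter e₀)))
    (h2 : ∀ e, e ≠ e₀ → (p (L.ini e) ∧ p (L.ter e) ∧ p (L.lab e)) ∨
      (¬ p (L.ini e) ∧ ¬ p (L.ter e) ∧ ¬ p (L.lab e)))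
    (l₁ : LocInd (part L p).G) (l₂ : LocInd (part L fun v => ¬ p v).G) : LocInd L.G := by
  classical
  -- the outer vertex, the inner vertex and the element `u`
  obtain ⟨u, w, hw, hu0, huL, hrel⟩ : ∃ (u : (part L p).G) (w : V) (hw : ¬ p w),
      (degG (part L p) u).toAdd = 1 ∧ partHom L p u = L.gen w ∧
      (∀ (H : Type) [Group H] (f : (part L p).G →* H) (g : H), g = f u →
        ∀ (fv : V → H), (∀ v (hv : p v), fv v = f ((part L p).gen ⟨v, hv⟩)) → fv w = g →
          fv (L.ini e₀) * fv (L.lab e₀) = fv (L.lab e₀) * fv (L.ter e₀)) := by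
    rcases h1 with ⟨hi, ht⟩ | ⟨hi, ht⟩
    · refine ⟨((part L p).gen ⟨L.lab e₀, h0⟩)⁻¹ * (part L p).gen ⟨L.ini e₀, hi⟩ *
        (part L p).gen ⟨L.lab e₀, h0⟩, L.ter e₀, ht, ?_, ?_, ?_⟩
      · simp only [MonoidHom.map_mul, MonoidHom.map_inv, degG_gen, toAdd_mul, toAdd_inv,
          toAdd_ofAdd]
        norm_num
      · rw [map_mul, map_mul, map_inv]
        rw [partHom_gen, partHom_gen]
        have h3 := gen_rel L e₀
        show (L.gen (L.lab e₀))⁻¹ * L.gen (L.ini e₀) * L.gen (L.lab e₀) = L.gen (L.ter e₀)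
        rw [mul_assoc, h3, inv_mul_cancel_left]
      · intro H _ f g hg fv hfv hgv
        rw [hgv, hg, map_mul, map_mul, map_inv, ← hfv, ← hfv]
        group
    · refine ⟨(part L p).gen ⟨L.lab e₀, h0⟩ * (part L p).gen ⟨L.ter e₀, ht⟩ *
        ((part L p).gen ⟨L.lab e₀, h0⟩)⁻¹, L.ini e₀, hi, ?_, ?_, ?_⟩
      · simp only [MonoidHom.map_mul, MonoidHom.map_inv, degG_gen, toAdd_mul, toAdd_inv,
          toAdd_ofAdd]
        norm_num
      · rw [map_mul, map_mul, map_inv]
        rw [partHom_gen, partHom_gen]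
        have h3 := gen_rel L e₀
        show L.gen (L.lab e₀) * L.gen (L.ter e₀) * (L.gen (L.lab e₀))⁻¹ = L.gen (L.ini e₀)
        rw [← h3, mul_inv_cancel_right]
      · intro H _ f g hg fv hfv hgv
        rw [hgv, hg, map_mul, map_mul, map_inv, ← hfv, ← hfv]
        group
  set wg : (part L fun v => ¬ p v).G := (part L fun v => ¬ p v).gen ⟨w, hw⟩ with hwg
  have hQ := locInd_dat2 (degG (part L p)) (degG (part L fun v => ¬ p v)) u wg
    (by rw [hu0]; norm_num) (by rw [hwg, degG_gen, toAdd_ofAdd]; norm_num) l₁ l₂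
  set N := Subgroup.normalClosure (Set.range (dat2 u wg).rel) with hN
  set mk := QuotientGroup.mk' N with hmk
  let G₁ := (part L p).G
  let G₂ := (part L fun v => ¬ p v).G
  let fa : G₁ →* _ := mk.comp (ia G₁ G₂)
  let fb : G₂ →* _ := mk.comp (ib G₁ G₂)
  let t := mk (idd G₁ G₂ (Multiplicative.ofAdd 1))
  have ht : fa u = t * fb wg * t⁻¹ := by
    have h3 : mk ((dat2 u wg).rel ()) = 1 :=
      (QuotientGroup.eq_one_iff _).2 (Subgroup.subset_normalClosure ⟨(), rfl⟩)
    rw [rel_dat2, map_mul, map_inv, mul_inv_eq_one, map_mul, map_mul] at h3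
    exact eq_mul_inv_of_mul_eq h3
  let fv : V → (CoprodI (GG G₁ G₂) ⧸ N) := fun v =>
    if h : p v then fa ((part L p).gen ⟨v, h⟩) else
      t * fb ((part L fun v => ¬ p v).gen ⟨v, h⟩) * t⁻¹
  have hfv1 : ∀ v (hv : p v), fv v = fa ((part L p).gen ⟨v, hv⟩) := fun v hv => dif_pos hv
  have hfv2 : ∀ v (hv : ¬ p v), fv v = t * fb ((part L fun v => ¬ p v).gen ⟨v, hv⟩) * t⁻¹ :=
    fun v hv => dif_neg hv
  let φ : L.G →* (CoprodI (GG G₁ G₂) ⧸ N) := liftG L fv (by
    intro e
    by_cases he : e = e₀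
    · subst he
      exact hrel _ fa (fa u) rfl fv hfv1 (by rw [hfv2 w hw, ht])
    · rcases h2 e he with ⟨a, b, c⟩ | ⟨a, b, c⟩
      · rw [hfv1 _ a, hfv1 _ b, hfv1 _ c, ← map_mul, ← map_mul]
        exact congrArg _ (gen_rel (part L p) ⟨e, a, b, c⟩)
      · rw [hfv2 _ a, hfv2 _ b, hfv2 _ c]
        have h3 := congrArg fb (gen_rel (part L fun v => ¬ p v) ⟨e, a, b, c⟩)
        rw [map_mul, map_mul] at h3
        have h4 : ∀ x y : (CoprodI (GG G₁ G₂) ⧸ N), t * x * t⁻¹ * (t * y * t⁻¹) = t * (x * y) * t⁻¹ :=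
          fun x y => by group
        rw [h4, h4]
        exact congrArg (fun x => t * x * t⁻¹) h3)
  let ψ0 : CoprodI (GG G₁ G₂) →* L.G := Monoid.CoprodI.lift fun i => match i with
    | .a => partHom L p
    | .b => partHom L fun v => ¬ p v
    | .d => (1 : Multiplicative ℤ →* L.G)
  have hψa : ∀ x, ψ0 (ia G₁ G₂ x) = partHom L p x := fun x => Monoid.CoprodI.lift_of _ _
  have hψb : ∀ x, ψ0 (ib G₁ G₂ x) = partHom L (fun v => ¬ p v) x :=
    fun x => Monoid.CoprodI.lift_of _ _
  have hψd : ∀ x, ψ0 (idd G₁ G₂ x) = 1 := fun x => Monoid.CoprodI.lift_of _ _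
  let ψ : (CoprodI (GG G₁ G₂) ⧸ N) →* L.G := QuotientGroup.lift N ψ0 (by
    intro x hx
    have h3 : N ≤ ψ0.ker := by
      refine Subgroup.normalClosure_le_normal ?_
      rintro _ ⟨e, rfl⟩
      show ψ0 ((dat2 u wg).rel e) = 1
      rw [rel_dat2, map_mul, map_inv, map_mul, map_mul, hψa, hψb, hψd, huL, mul_one, one_mul,
        mul_inv_eq_one]
      exact (partHom_gen L (fun v => ¬ p v) ⟨w, hw⟩).symm
    exact h3 hx)
  have hψfa : ∀ x, ψ (fa x) = partHom L p x := fun x => hψa x
  have hψfb : ∀ x, ψ (fb x) = partHom L (fun v => ¬ p v) x := fun x => hψb x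
  have hψt : ψ t = 1 := hψd (Multiplicative.ofAdd 1)
  have hcomp : ψ.comp φ = MonoidHom.id L.G := by
    apply hom_ext
    intro v
    show ψ (φ (L.gen v)) = L.gen v
    rw [show φ (L.gen v) = fv v from liftG_gen _ _ _ _]
    by_cases hv : p v
    · rw [hfv1 v hv, hψfa, partHom_gen]
    · rw [hfv2 v hv, map_mul, map_mul, map_inv, hψt, inv_one, mul_one, one_mul, hψfb, partHom_gen]
  refine locInd_of_injective hQ φ ?_
  intro x y hxy
  have := congrArg ψ hxy
  have hx := DFunLike.congr_fun hcomp x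
  have hy := DFunLike.congr_fun hcomp y
  exact hx.symm.trans (this.trans hy)

end Pool.Agent.V5helper80.Rel
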